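import Pool.Agent.TH883.Zg.Gen
import Pool.Agent.TH456.TM.Inst

/-!
# Combinations of Dirichlet series with coefficients polynomial in a number with a transcendence
measure (helper760)
-/

set_option autoImplicit false

namespace Pool.Agent.Y760.PZ

open Finset Filter Topology Pool.Agent.TH507.ZS Pool.Agent.TH883.Zg Pool.Agent.TH456.TM

/-- finitely many coefficients determine a combination -/
lemma rank {J : Type} [Fintype J] (G : J → ArithmeticFunction ℚ)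
    (hind : ∀ c : J → ℚ, (∀ k, 1 ≤ k → ∑ j, c j * G j k = 0) → c = 0) :
    ∃ K : ℕ, 1 ≤ K ∧ ∀ c : J → ℚ, (∀ k ∈ Icc 1 K, ∑ j, c j * G j k = 0) → c = 0 := by
  classical
  let V : ℕ → Submodule ℚ (J → ℚ) := fun K =>
    { carrier := {c | ∀ k ∈ Icc 1 K, ∑ j, c j * G j k = 0}
      add_mem' := by
        intro a b ha hb k hk
        have h1 := ha k hk
        have h2 := hb k hk
        simp only [Pi.add_apply, add_mul, sum_add_distrib]
        rw [h1, h2, add_zero]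
      zero_mem' := by
        intro k _
        simp
      smul_mem' := by
        intro r a ha k hk
        have h1 := ha k hk
        simp only [Pi.smul_apply, smul_eq_mul, mul_assoc]
        rw [← mul_sum, h1, mul_zero] }
  have hV : ∀ K (c : J → ℚ), c ∈ V K ↔ ∀ k ∈ Icc 1 K, ∑ j, c j * G j k = 0 := fun K c => Iff.rfl
  let f : ℕ →o (Submodule ℚ (J → ℚ))ᵒᵈ :=
    ⟨fun K => OrderDual.toDual (V K), by
      intro K L hKL
      rw [OrderDual.toDual_le_toDual]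
      intro c hc
      rw [hV] at hc ⊢
      intro k hk
      rw [mem_Icc] at hk
      exact hc k (mem_Icc.2 ⟨hk.1, hk.2.trans hKL⟩)⟩
  obtain ⟨n, hn⟩ := IsArtinian.monotone_stabilizes f
  have hn' : ∀ m, n ≤ m → V n = V m := fun m hm => by
    have := hn m hm
    exact OrderDual.toDual.injective this
  refine ⟨n + 1, by omega, fun c hc => hind c fun k hk => ?_⟩
  have h1 : c ∈ V (n + 1) := (hV _ _).2 hc
  rw [← hn' (n + 1) (by omega), hn' (n + k) (by omega)] at h1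
  exact (hV _ _).1 h1 k (mem_Icc.2 ⟨hk, by omega⟩)

/-- the numbers `C = σ ^ (1 / (κ + 1))`, `W = C ^ κ` -/
lemma exists_CW {σ κ : ℝ} (hσ : 1 < σ) (hκ : 0 ≤ κ) :
    ∃ C W : ℝ, 1 < C ∧ 1 ≤ W ∧ C * W = σ ∧ ∀ (E : ℝ) (n : ℕ), 0 ≤ E →
      (E * C ^ n) ^ κ = E ^ κ * W ^ n := by
  have hC1 : 1 < σ ^ (1 / (κ + 1)) := Real.one_lt_rpow hσ (by positivity)
  have hC0 : (0 : ℝ) < σ ^ (1 / (κ + 1)) := by linarith only [hC1]
  refine ⟨σ ^ (1 / (κ + 1)), (σ ^ (1 / (κ + 1))) ^ κ, hC1, Real.one_le_rpow hC1.le hκ, ?_, ?_⟩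
  · rw [← Real.rpow_one_add' hC0.le (by positivity), ← Real.rpow_mul (by linarith only [hσ])]
    rw [show 1 / (κ + 1) * (1 + κ) = 1 by
      field_simp
      ring]
    exact Real.rpow_one σ
  · intro E n hE
    rw [Real.mul_rpow hE (pow_nonneg hC0.le n), Real.rpow_pow_comm hC0.le]

/-- the final inequality -/
lemma final {κ0 R0 σ W : ℝ} (hκ0 : 0 < κ0) (hσ : 1 < σ) (hW : 1 ≤ W) (K : ℕ) (hK : 1 ≤ K) :
    ∃ B : ℝ, 1 < B ∧ ∃ n0 : ℕ, ∀ n, n0 ≤ n → ∀ m : ℕ, 1 ≤ m → m ≤ K → ∀ T : ℝ,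
      κ0 - R0 / σ ^ n ≤ T * ((m : ℝ) ^ n * W ^ n) → (B ^ n)⁻¹ < T := by
  have hKR : (1 : ℝ) ≤ K := by exact_mod_cast hK
  have e1 : ∀ᶠ n : ℕ in atTop, R0 / σ ^ n < κ0 / 2 := by
    have h1 : Tendsto (fun n : ℕ => R0 / σ ^ n) atTop (𝓝 0) :=
      tendsto_const_nhds.div_atTop (tendsto_pow_atTop_atTop_of_one_lt hσ)
    exact h1.eventually (gt_mem_nhds (by positivity))
  have e2 : ∀ᶠ n : ℕ in atTop, 2 / κ0 < (2 : ℝ) ^ n :=
    (tendsto_pow_atTop_atTop_of_one_lt (by norm_num)).eventually (eventually_gt_atTop _)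
  obtain ⟨n0, hn0⟩ := eventually_atTop.1 (e1.and e2)
  refine ⟨2 * (K * W), by nlinarith only [hKR, hW], n0, fun n hn m hm hmK T hT => ?_⟩
  obtain ⟨h1, h2⟩ := hn0 n hn
  have hmR : (1 : ℝ) ≤ m := by exact_mod_cast hm
  have hmK' : (m : ℝ) ≤ K := by exact_mod_cast hmK
  have h3 : κ0 / 2 < T * ((m : ℝ) ^ n * W ^ n) := by linarith only [h1, hT]
  have hp : (0 : ℝ) < (m : ℝ) ^ n * W ^ n := by positivity
  have hT0 : 0 < T := by
    by_contra h
    have h4 : T * ((m : ℝ) ^ n * W ^ n) ≤ 0 :=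
      mul_nonpos_of_nonpos_of_nonneg (by linarith only [h]) hp.le
    linarith only [h4, h3, hκ0]
  have h5 : T * ((m : ℝ) ^ n * W ^ n) ≤ T * (K * W) ^ n := by
    rw [mul_pow]
    gcongr
  have h6 : 1 < T * (2 * (K * W)) ^ n := by
    have h7 : 2 < κ0 * (2 : ℝ) ^ n := by
      rw [div_lt_iff₀ hκ0] at h2
      linarith only [h2]
    calc (1 : ℝ) < κ0 / 2 * 2 ^ n := by linarith only [h7]
      _ ≤ T * (K * W) ^ n * 2 ^ n := by
        refine mul_le_mul_of_nonneg_right ?_ (by positivity)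
        linarith only [h3, h5]
      _ = T * (2 * (K * W)) ^ n := by
        rw [mul_pow 2]
        ring
  rw [inv_lt_iff_one_lt_mul₀ (by positivity)]
  linarith only [h6]

/-- **the main estimate** -/
theorem core {J : Type} [Fintype J] (θ : ℝ) (hθ : MeasT (θ : ℂ)) (G : J → ArithmeticFunction ℚ)
    (hG : ∀ j, PB (G j))
    (hind : ∀ c : J → ℚ, (∀ k, 1 ≤ k → ∑ j, c j * G j k = 0) → c = 0) (D : ℕ) :
    ∃ B C : ℝ, 1 < B ∧ 1 < C ∧ ∃ n0 : ℕ, ∀ n : ℕ, n0 ≤ n → ∀ a : J → Fin (D + 1) → ℤ, a ≠ 0 →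
      (∀ j i, |(a j i : ℝ)| ≤ C ^ n) →
      (B ^ n)⁻¹ < |∑ j, (∑ i, (a j i : ℝ) * θ ^ (i : ℕ)) * dser (G j) n| := by
  classical
  obtain ⟨A, hA⟩ := common G hG
  obtain ⟨K, hK1, hK⟩ := rank G hind
  obtain ⟨Δ, hΔ0, hΔ⟩ := exists_denom G K
  obtain ⟨κ, c0, hκ, hc0, hmeas⟩ := hθ D
  have hKR : (1 : ℝ) ≤ K := by exact_mod_cast hK1
  have hΔR : (0 : ℝ) < Δ := by exact_mod_cast Nat.pos_of_ne_zero hΔ0
  have hσ : (1 : ℝ) < √(((K : ℝ) + 1) / K) := by
    rw [Real.lt_sqrt (by norm_num), one_pow, one_lt_div (by linarith only [hKR])]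
    linarith only
  obtain ⟨C, W, hC, hW, hCW, hpow⟩ := exists_CW hσ hκ
  have hC0 : (0 : ℝ) < C := by linarith only [hC]
  set E : ℝ := 1 + Fintype.card J * (Δ * (A * (K : ℝ) ^ A)) with hE
  have hE1 : 1 ≤ E := by
    rw [hE]
    have : (0 : ℝ) ≤ Fintype.card J * (Δ * (A * (K : ℝ) ^ A)) := by positivity
    linarith only [this]
  have hE0 : (0 : ℝ) < E := by linarith only [hE1]
  set S : ℝ := ∑ i : Fin (D + 1), |θ| ^ (i : ℕ) with hS
  have hS0 : 0 ≤ S := sum_nonneg fun i _ => pow_nonneg (abs_nonneg _) _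
  set R0 : ℝ := Fintype.card J * (S * (A * ((K : ℝ) + 1) ^ (A + 2) * Z2)) with hR0
  have hZ2 := Z2_nonneg
  obtain ⟨B, hB, n1, hfin⟩ := final (κ0 := c0 / (Δ * E ^ κ)) (R0 := R0)
    (div_pos hc0 (mul_pos hΔR (Real.rpow_pos_of_pos hE0 κ))) hσ hW K hK1
  refine ⟨B, C, hB, hC, n1 + (A + 2), fun n hn a ha haC => ?_⟩
  -- the least index with a nonzero coefficient
  obtain ⟨i0, hi0⟩ : ∃ i, (fun j => (a j i : ℚ)) ≠ 0 := by
    by_contra hcon
    push Not at hcon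
    apply ha
    funext j i
    have := congrFun (hcon i) j
    simpa using this
  have hex : ∃ m, 1 ≤ m ∧ m ≤ K ∧ ∃ i, ∑ j, (a j i : ℚ) * G j m ≠ 0 := by
    by_contra hcon
    push Not at hcon
    exact hi0 (hK _ fun k hk => by
      rw [mem_Icc] at hk
      exact hcon k hk.1 hk.2 i0)
  set m0 := Nat.find hex with hm0
  obtain ⟨h01, h0K, i1, hi1⟩ : 1 ≤ m0 ∧ m0 ≤ K ∧ ∃ i, ∑ j, (a j i : ℚ) * G j m0 ≠ 0 :=
    Nat.find_spec hex
  have hmin : ∀ m, 1 ≤ m → m < m0 → ∀ i, ∑ j, (a j i : ℚ) * G j m = 0 := by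
    intro m hm1 hm i
    by_contra h
    exact Nat.find_min hex hm ⟨hm1, by omega, i, h⟩
  have hm0R : (1 : ℝ) ≤ m0 := by exact_mod_cast h01
  have hm0K : (m0 : ℝ) ≤ K := by exact_mod_cast h0K
  set x : J → ℝ := fun j => ∑ i, (a j i : ℝ) * θ ^ (i : ℕ) with hx
  -- the coefficient
  have hsw : ∀ k : ℕ, ∑ j, x j * (G j k : ℝ) =
      ∑ i : Fin (D + 1), ((∑ j, (a j i : ℚ) * G j k : ℚ) : ℝ) * θ ^ (i : ℕ) := by
    intro k
    simp only [hx, sum_mul]
    rw [sum_comm]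
    refine sum_congr rfl fun i _ => ?_
    push_cast
    rw [sum_mul]
    refine sum_congr rfl fun j _ => ?_
    ring
  have hzero : ∀ k, 1 ≤ k → k < m0 → ∑ j, x j * (G j k : ℝ) = 0 := by
    intro k hk hk0
    rw [hsw]
    refine sum_eq_zero fun i _ => ?_
    rw [hmin k hk hk0 i]
    simp
  -- the polynomial
  set q : Fin (D + 1) → ℤ := fun i => ∑ j, a j i * ((Δ : ℚ) * G j m0).num with hq
  have hqQ : ∀ i, (q i : ℚ) = Δ * ∑ j, (a j i : ℚ) * G j m0 := by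
    intro i
    rw [hq, mul_sum]
    push_cast
    refine sum_congr rfl fun j _ => ?_
    rw [hΔ j m0 (mem_Icc.2 ⟨h01, h0K⟩)]
    ring
  set Q : Polynomial ℤ := ∑ i : Fin (D + 1), Polynomial.C (q i) * Polynomial.X ^ (i : ℕ) with hQ
  have hcoef : ∀ k, Q.coeff k = if h : k < D + 1 then q ⟨k, h⟩ else 0 := by
    intro k
    rw [hQ]
    simp only [Polynomial.finsetSum_coeff, Polynomial.coeff_C_mul, Polynomial.coeff_X_pow]
    by_cases h : k < D + 1
    · rw [dif_pos h, sum_eq_single ⟨k, h⟩]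
      · simp
      · intro b _ hb
        rw [if_neg (fun h2 => hb (Fin.ext h2.symm)), mul_zero]
      · intro h2
        exact absurd (mem_univ _) h2
    · rw [dif_neg h]
      refine sum_eq_zero fun i _ => ?_
      have := i.2
      rw [if_neg (by omega), mul_zero]
  have hQ0 : Q ≠ 0 := by
    intro h
    have h1 := hcoef i1
    rw [h, dif_pos i1.2, Polynomial.coeff_zero] at h1
    have h2 := hqQ i1
    rw [show (q i1 : ℤ) = 0 from h1.symm] at h2
    have h3 : (Δ : ℚ) * ∑ j, (a j i1 : ℚ) * G j m0 = 0 := by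
      rw [← h2]
      simp
    rcases mul_eq_zero.1 h3 with h4 | h4
    · exact hΔ0 (by exact_mod_cast h4)
    · exact hi1 h4
  have hQD : Q.natDegree ≤ D := by
    rw [Polynomial.natDegree_le_iff_coeff_eq_zero]
    intro k hk
    rw [hcoef k, dif_neg (by omega)]
  have hCn : (1 : ℝ) ≤ C ^ n := one_le_pow₀ hC.le
  have hqb : ∀ i, |(q i : ℝ)| ≤ E * C ^ n := by
    intro i
    have h1 : (q i : ℝ) = Δ * ∑ j, (a j i : ℝ) * (G j m0 : ℝ) := by exact_mod_cast hqQ i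
    rw [h1, abs_mul, abs_of_pos hΔR]
    have h2 : |∑ j, (a j i : ℝ) * (G j m0 : ℝ)| ≤ Fintype.card J * (C ^ n * (A * (K : ℝ) ^ A)) := by
      refine (abs_sum_le_sum_abs _ _).trans ?_
      rw [← nsmul_eq_mul, ← card_univ, ← sum_const]
      refine sum_le_sum fun j _ => ?_
      rw [abs_mul]
      refine mul_le_mul (haC j i) ((hA j m0 h01).trans ?_) (abs_nonneg _) (by positivity)
      gcongr
    calc (Δ : ℝ) * |∑ j, (a j i : ℝ) * (G j m0 : ℝ)| ≤
        Δ * (Fintype.card J * (C ^ n * (A * (K : ℝ) ^ A))) :=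
          mul_le_mul_of_nonneg_left h2 hΔR.le
      _ = (Fintype.card J * (Δ * (A * (K : ℝ) ^ A))) * C ^ n := by ring
      _ ≤ E * C ^ n := by
        refine mul_le_mul_of_nonneg_right ?_ (by positivity)
        rw [hE]
        linarith only
  have hmeasQ := hmeas Q hQ0 hQD (E * C ^ n) (one_le_mul_of_one_le_of_one_le hE1 hCn) (fun k => by
    rw [hcoef k]
    split_ifs with h
    · exact hqb _
    · simp only [Int.cast_zero, abs_zero]
      positivity)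
  have hQθ : ‖Polynomial.aeval (θ : ℂ) Q‖ = Δ * |∑ j, x j * (G j m0 : ℝ)| := by
    have h1 : Polynomial.aeval (θ : ℂ) Q = ((Δ * ∑ j, x j * (G j m0 : ℝ) : ℝ) : ℂ) := by
      rw [hQ, map_sum, hsw, mul_sum]
      push_cast
      refine sum_congr rfl fun i _ => ?_
      rw [map_mul, map_pow, Polynomial.aeval_X, Polynomial.aeval_C]
      have h2 : ((q i : ℤ) : ℂ) = Δ * ∑ j, (a j i : ℂ) * (G j m0 : ℂ) := by
        have h3 : (((q i : ℤ) : ℚ) : ℂ) = ((Δ * ∑ j, (a j i : ℚ) * G j m0 : ℚ) : ℂ) := by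
          rw [hqQ i]
        push_cast at h3
        exact h3
      rw [show (algebraMap ℤ ℂ) (q i) = ((q i : ℤ) : ℂ) from rfl, h2]
      ring
    rw [h1, Complex.norm_real, Real.norm_eq_abs, abs_mul, abs_of_pos hΔR]
  rw [hQθ, hpow E n hE0.le] at hmeasQ
  -- the remainder
  have htail : |∑ j, x j * dser (G j) n - (∑ j, x j * (G j m0 : ℝ)) / (m0 : ℝ) ^ n| ≤
      R0 * C ^ n / ((m0 : ℝ) + 1) ^ n := by
    have h1 : ∑ j, x j * dser (G j) n - (∑ j, x j * (G j m0 : ℝ)) / (m0 : ℝ) ^ n =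
        ∑ j, x j * (dser (G j) n - ∑ m ∈ Ico 1 (m0 + 1), (G j m : ℝ) / (m : ℝ) ^ n) := by
      simp only [mul_sub, sum_sub_distrib]
      congr 1
      have h2 : ∑ j, x j * ∑ m ∈ Ico 1 (m0 + 1), (G j m : ℝ) / (m : ℝ) ^ n =
          ∑ m ∈ Ico 1 (m0 + 1), (∑ j, x j * (G j m : ℝ)) / (m : ℝ) ^ n := by
        simp only [mul_sum, sum_div]
        rw [sum_comm]
        refine sum_congr rfl fun m _ => sum_congr rfl fun j _ => ?_
        ring
      rw [h2, sum_eq_single m0]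
      · intro m hm hne
        rw [mem_Ico] at hm
        rw [hzero m hm.1 (by omega), zero_div]
      · intro h
        exact absurd (mem_Ico.2 ⟨h01, by omega⟩) h
    rw [h1]
    refine (abs_sum_le_sum_abs _ _).trans ?_
    have h3 : ∀ j ∈ (univ : Finset J), |x j * (dser (G j) n -
        ∑ m ∈ Ico 1 (m0 + 1), (G j m : ℝ) / (m : ℝ) ^ n)| ≤
        C ^ n * S * (A * (((K : ℝ) + 1) ^ (A + 2) / ((m0 : ℝ) + 1) ^ n) * Z2) := by
      intro j _
      rw [abs_mul]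
      have h4 := tail (hA j) (show 1 ≤ m0 + 1 by omega) (show A + 2 ≤ n by omega)
      have h5 : ((m0 + 1 : ℕ) : ℝ) = (m0 : ℝ) + 1 := by push_cast; rfl
      rw [h5] at h4
      have h6 : |x j| ≤ C ^ n * S := by
        rw [hx, hS, mul_sum]
        refine (abs_sum_le_sum_abs _ _).trans (sum_le_sum fun i _ => ?_)
        rw [abs_mul, abs_pow]
        exact mul_le_mul_of_nonneg_right (haC j i) (by positivity)
      refine mul_le_mul h6 (h4.trans ?_) (abs_nonneg _) (by positivity)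
      gcongr
    refine (sum_le_sum h3).trans (le_of_eq ?_)
    rw [sum_const, card_univ, nsmul_eq_mul, hR0]
    ring
  -- conclusion
  refine hfin n (by omega) m0 h01 h0K _ ?_
  set u : ℝ := ∑ j, x j * (G j m0 : ℝ) with hu
  set T : ℝ := ∑ j, x j * dser (G j) n with hT
  have hmn : (0 : ℝ) < (m0 : ℝ) ^ n := by positivity
  have hWn : (0 : ℝ) < W ^ n := by
    have : (0 : ℝ) < W := by linarith only [hW]
    positivity
  have hEκ : (0 : ℝ) < E ^ κ := Real.rpow_pos_of_pos hE0 κ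
  have h1 : |u| / (m0 : ℝ) ^ n - R0 * C ^ n / ((m0 : ℝ) + 1) ^ n ≤ |T| := by
    have h2 : |u / (m0 : ℝ) ^ n| - |T - u / (m0 : ℝ) ^ n| ≤ |T| := by
      have h3 := abs_sub_abs_le_abs_sub (u / (m0 : ℝ) ^ n) T
      rw [abs_sub_comm] at h3
      linarith only [h3]
    rw [abs_div, abs_of_pos hmn] at h2
    linarith only [h2, htail]
  have h2 : c0 / (Δ * E ^ κ) ≤ |u| * W ^ n := by
    rw [div_le_iff₀ (mul_pos hΔR hEκ)]
    calc c0 ≤ E ^ κ * W ^ n * (Δ * |u|) := hmeasQ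
      _ = |u| * W ^ n * (Δ * E ^ κ) := by ring
  have hR00 : 0 ≤ R0 := by
    rw [hR0]
    positivity
  have h3 : R0 * C ^ n / ((m0 : ℝ) + 1) ^ n * ((m0 : ℝ) ^ n * W ^ n) ≤
      R0 / √(((K : ℝ) + 1) / K) ^ n := by
    set s : ℝ := √(((K : ℝ) + 1) / K) with hs
    have hs0 : 0 < s := by linarith only [hσ]
    have hs2 : s * s = ((K : ℝ) + 1) / K := Real.mul_self_sqrt (by positivity)
    have h4 : s * s ≤ ((m0 : ℝ) + 1) / m0 := by
      rw [hs2, div_le_div_iff₀ (by linarith only [hKR]) (by linarith only [hm0R])]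
      nlinarith only [hm0K]
    have h5 : R0 * C ^ n / ((m0 : ℝ) + 1) ^ n * ((m0 : ℝ) ^ n * W ^ n) =
        R0 * (s ^ n * ((m0 : ℝ) / ((m0 : ℝ) + 1)) ^ n) := by
      rw [← hCW, mul_pow C W, div_pow (m0 : ℝ)]
      ring
    rw [h5, div_eq_mul_inv]
    refine mul_le_mul_of_nonneg_left ?_ hR00
    rw [← mul_pow, ← inv_pow]
    refine pow_le_pow_left₀ (by positivity) ?_ n
    rw [show s⁻¹ = 1 / s from (one_div s).symm, le_div_iff₀ hs0]
    have hm1 : (0 : ℝ) < (m0 : ℝ) + 1 := by linarith only [hm0R]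
    have hm2 : (0 : ℝ) < (m0 : ℝ) := by linarith only [hm0R]
    calc s * ((m0 : ℝ) / ((m0 : ℝ) + 1)) * s = s * s * ((m0 : ℝ) / ((m0 : ℝ) + 1)) := by ring
      _ ≤ ((m0 : ℝ) + 1) / m0 * ((m0 : ℝ) / ((m0 : ℝ) + 1)) :=
        mul_le_mul_of_nonneg_right h4 (by positivity)
      _ = 1 := by field_simp
  calc c0 / (Δ * E ^ κ) - R0 / √(((K : ℝ) + 1) / K) ^ n ≤
      |u| * W ^ n - R0 * C ^ n / ((m0 : ℝ) + 1) ^ n * ((m0 : ℝ) ^ n * W ^ n) := sub_le_sub h2 h3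
    _ = (|u| / (m0 : ℝ) ^ n - R0 * C ^ n / ((m0 : ℝ) + 1) ^ n) * ((m0 : ℝ) ^ n * W ^ n) := by
      field_simp
    _ ≤ |T| * ((m0 : ℝ) ^ n * W ^ n) :=
      mul_le_mul_of_nonneg_right h1 (mul_pos hmn hWn).le

end Pool.Agent.Y760.PZ
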