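import Pool.Agent.TH883.Zg.Mzv
import Pool.Agent.Y760.PZ.Core

/-!
# Polynomials in a number with a transcendence measure and in Dirichlet series (helper760)
-/

set_option autoImplicit false

namespace Pool.Agent.Y760.PZ

open Finset Filter Topology Pool.Agent.TH507.ZS Pool.Agent.TH507.HS Pool.Agent.TH883.Zg
  Pool.Agent.TH456.TM

section

variable {J : Type} [Fintype J]

/-- the value of a polynomial of bounded degree -/
lemma eval_exq {J : Type} [Fintype J] [DecidableEq J] {d : ℕ} {P : MvPolynomial J ℤ}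
    (hP : P.totalDegree ≤ d) (x : J → ℝ) :
    MvPolynomial.aeval x P =
      ∑ e : J → Fin (d + 1), ((P.coeff (exq e) : ℤ) : ℝ) *
        ∏ j, x j ^ ((e j : Fin (d + 1)) : ℕ) := by
  classical
  rw [MvPolynomial.aeval_def, MvPolynomial.eval₂_eq']
  have h5 : ∑ e : J → Fin (d + 1), ((P.coeff (exq e) : ℤ) : ℝ) *
      ∏ j, x j ^ ((e j : Fin (d + 1)) : ℕ) =
      ∑ m ∈ (univ : Finset (J → Fin (d + 1))).image exq, ((P.coeff m : ℤ) : ℝ) *
        ∏ j, x j ^ (m j) := by
    rw [sum_image (fun _ _ _ _ hee => exq_inj hee)]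
    rfl
  rw [h5]
  refine sum_subset ?_ ?_
  · intro m hm
    obtain ⟨e, he⟩ := exq_surj hP hm
    exact mem_image.2 ⟨e, mem_univ _, he⟩
  · intro m _ hm
    rw [MvPolynomial.notMem_support_iff.1 hm]
    simp

/-- **polynomials in a number with a transcendence measure and in Dirichlet series** -/
theorem alg [DecidableEq J] (θ : ℝ) (hθ : MeasT (θ : ℂ)) (g : J → ArithmeticFunction ℚ)
    (hg : ∀ j, PB (g j))
    (hpr : ∀ Y : ℕ, ∀ c : J → ℚ, (∀ q : ℕ, q.Prime → Y ≤ q → ∑ j, c j * g j q = 0) → c = 0)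
    (d : ℕ) :
    ∃ B C : ℝ, 1 < B ∧ 1 < C ∧ ∃ n0 : ℕ, ∀ n : ℕ, n0 ≤ n →
      ∀ P : MvPolynomial (Option J) ℤ, P ≠ 0 → P.totalDegree ≤ d →
      (∀ e, |((P.coeff e : ℤ) : ℝ)| ≤ C ^ n) →
      (B ^ n)⁻¹ < |MvPolynomial.aeval (fun o : Option J => o.elim θ fun j => dser (g j) n) P| := by
  classical
  set G : (J → Fin (d + 1)) → ArithmeticFunction ℚ :=
    fun e => ∏ j, g j ^ ((e j : Fin (d + 1)) : ℕ) with hG
  have hrep : ∀ e, RB (G e) (fun n => ∏ j, dser (g j) n ^ ((e j : Fin (d + 1)) : ℕ)) := fun e =>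
    RB.prod univ (fun j => g j ^ ((e j : Fin (d + 1)) : ℕ)) _ fun j _ =>
      RB.pow ⟨hg j, 0, fun n _ => rfl⟩ _
  have hind : ∀ c : (J → Fin (d + 1)) → ℚ, (∀ k, 1 ≤ k → ∑ e, c e * G e k = 0) → c = 0 := by
    intro c hc
    set P : MvPolynomial J ℚ := ∑ e, MvPolynomial.monomial (exq e) (c e) with hP
    have h1 : MvPolynomial.aeval g P = ∑ e, c e • G e := by
      rw [hP, map_sum]
      refine sum_congr rfl fun e _ => ?_
      rw [MvPolynomial.aeval_monomial, Finsupp.prod_fintype _ _ (fun _ => pow_zero _),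
        Algebra.smul_def]
      rfl
    have h2 : ∀ (s : Finset (J → Fin (d + 1))) (k : ℕ),
        (∑ e ∈ s, c e • G e) k = ∑ e ∈ s, c e * G e k := by
      intro s k
      induction s using Finset.induction_on with
      | empty => rfl
      | insert a s ha ih =>
        rw [sum_insert ha, sum_insert ha, ArithmeticFunction.add_apply, ih]
        rfl
    have h3 := alg_ind g hpr 1 le_rfl P.totalDegree P le_rfl (fun k hk _ => by
      rw [h1, h2]
      exact hc k hk)
    funext e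
    have h4 : MvPolynomial.coeff (exq e) P = c e := by
      rw [hP, MvPolynomial.coeff_sum, sum_eq_single e]
      · rw [MvPolynomial.coeff_monomial, if_pos rfl]
      · intro e' _ hne
        rw [MvPolynomial.coeff_monomial, if_neg (fun h => hne (exq_inj h))]
      · intro h
        exact absurd (mem_univ _) h
    rw [← h4, h3, MvPolynomial.coeff_zero]
    rfl
  obtain ⟨B, C, hB, hC, n0, hmain⟩ := core θ hθ G (fun e => (hrep e).1) hind d
  choose n1 hn1 using fun e => (hrep e).2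
  set n2 : ℕ := ∑ e, n1 e with hn2
  have hn2' : ∀ e, n1 e ≤ n2 := fun e =>
    Finset.single_le_sum (f := n1) (fun _ _ => Nat.zero_le _) (Finset.mem_univ e)
  refine ⟨B, C, hB, hC, n0 + n2, fun n hn P hP hPd hPC => ?_⟩
  have hex : ∀ E : Option J → Fin (d + 1),
      E = fun o : Option J => o.elim (E none) fun j => E (some j) := by
    intro E
    funext o
    cases o <;> rfl
  have h3 := hmain n (by omega)
    (fun e i => P.coeff (exq (fun o : Option J => o.elim i e))) (by
    intro h0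
    apply hP
    ext m
    rw [MvPolynomial.coeff_zero]
    by_contra hm
    obtain ⟨E, hE⟩ := exq_surj hPd (MvPolynomial.mem_support_iff.2 hm)
    apply hm
    rw [← hE, hex E]
    exact congrFun (congrFun h0 _) _) (fun e i => hPC _)
  have h4 : ∀ e, dser (G e) n = ∏ j, dser (g j) n ^ ((e j : Fin (d + 1)) : ℕ) := fun e =>
    hn1 e n (by have := hn2' e; omega)
  have h5 : MvPolynomial.aeval (fun o : Option J => o.elim θ fun j => dser (g j) n) P =
      ∑ e : J → Fin (d + 1), (∑ i : Fin (d + 1),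
        ((P.coeff (exq (fun o : Option J => o.elim i e)) : ℤ) : ℝ) * θ ^ (i : ℕ)) *
          dser (G e) n := by
    rw [eval_exq hPd, ← Equiv.sum_comp (Equiv.piOptionEquivProd (β := fun _ => Fin (d + 1))).symm,
      Fintype.sum_prod_type_right]
    refine sum_congr rfl fun e _ => ?_
    rw [sum_mul]
    refine sum_congr rfl fun i _ => ?_
    have h6 : (Equiv.piOptionEquivProd (β := fun _ : Option J => Fin (d + 1))).symm (i, e) =
        fun o : Option J => o.elim i e := by
      funext o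
      cases o <;> rfl
    rw [h6, Fintype.prod_option, h4 e, mul_assoc]
    rfl
  rw [h5]
  exact h3

end

/-- **`π` and multiple zeta values with one large argument.** -/
theorem pi_mzv (Λ : Finset (List ℕ+)) (h d : ℕ) :
    ∃ B C : ℝ, 1 < B ∧ 1 < C ∧ ∃ n0 : ℕ, ∀ n : ℕ, n0 ≤ n →
      ∀ P : MvPolynomial (Option (Fin (h + 1) × Λ)) ℤ, P ≠ 0 → P.totalDegree ≤ d →
      (∀ e, |((P.coeff e : ℤ) : ℝ)| ≤ C ^ n) →
      (B ^ n)⁻¹ < |MvPolynomial.aeval (fun o : Option (Fin (h + 1) × Λ) =>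
        o.elim Real.pi fun j => dser (hs j.2.1) (n + j.1)) P| := by
  set g : Fin (h + 1) × Λ → ArithmeticFunction ℚ :=
    fun j => af (fun k => hs j.2.1 k / (k : ℚ) ^ (j.1 : ℕ)) with hg
  have hga : ∀ j k, 1 ≤ k → g j k = hs j.2.1 k / (k : ℚ) ^ (j.1 : ℕ) := fun j k hk =>
    af_apply _ hk
  have hgb : ∀ j, PB (g j) := by
    intro x
    refine ⟨x.2.1.length + 1, fun k hk => ?_⟩
    have h1 : (1 : ℝ) ≤ k := by exact_mod_cast hk
    rw [hga x k hk]
    push_cast
    rw [abs_div, abs_of_pos (by positivity : (0 : ℝ) < (k : ℝ) ^ (x.1 : ℕ))]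
    refine (div_le_self (abs_nonneg _) (one_le_pow₀ h1)).trans ((hs_bound _ k hk).trans ?_)
    have h3 : (1 : ℝ) ≤ (x.2.1.length : ℝ) + 1 := by
      have : (0 : ℝ) ≤ (x.2.1.length : ℝ) := Nat.cast_nonneg _
      linarith only [this]
    calc (k : ℝ) ^ x.2.1.length ≤ (k : ℝ) ^ (x.2.1.length + 1) :=
          pow_le_pow_right₀ h1 (by omega)
      _ ≤ ((x.2.1.length : ℝ) + 1) * (k : ℝ) ^ (x.2.1.length + 1) :=
          le_mul_of_one_le_left (by positivity) h3
  obtain ⟨B, C, hB, hC, n0, hmain⟩ := alg Real.pi measT_pi g hgb (fun Y c hc => hs_prime Λ h Y c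
    (fun q hq hqY => by
      rw [← hc q hq hqY]
      exact sum_congr rfl fun j _ => by rw [hga j q hq.one_lt.le])) d
  refine ⟨B, C, hB, hC, n0, fun n hn P hP hPd hPC => ?_⟩
  have h1 := hmain n hn P hP hPd hPC
  have h2 : (fun j : Fin (h + 1) × Λ => dser (g j) n) =
      fun j : Fin (h + 1) × Λ => dser (hs j.2.1) (n + j.1) := by
    funext j
    rw [dser, dser]
    refine tsum_congr fun k => ?_
    rw [hga j (k + 1) (by omega)]
    push_cast
    rw [pow_add, div_div, mul_comm (((k : ℝ) + 1) ^ (j.1 : ℕ))]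
  rw [h2] at h1
  exact h1

end Pool.Agent.Y760.PZ
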