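import Pool.Agent.Y760.PZ.Vec

/-!
# Two-sided neighbourhoods; polynomials (helper760)
-/

set_option autoImplicit false

namespace Pool.Agent.Y760.PZ

open Finset Filter Topology Pool.Agent.TH507.ZS Pool.Agent.TH883.Zg Pool.Agent.TH456.TM

/-- the value of the zeta function -/
noncomputable def ze (s : ℕ) : ℝ := ∑' m : ℕ, 1 / ((m : ℝ) + 1) ^ s

/-- the conclusion for one `n` and one `s` -/
def Con {I ι : Type} [Fintype I] [DecidableEq I] [Fintype ι] (θ : ι → ℝ) (d n : ℕ) (B C : ℝ)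
    (s : I → ℕ) : Prop :=
  ∀ a : (I → Fin (d + 1)) → ι → ℤ, a ≠ 0 → (∀ e i, |(a e i : ℝ)| ≤ C ^ n) →
    (B ^ n)⁻¹ < |∑ e : I → Fin (d + 1), (∑ i, (a e i : ℝ) * θ i) *
      ∏ i, ze (s i) ^ ((e i : Fin (d + 1)) : ℕ)|

lemma Con.mono {I ι : Type} [Fintype I] [DecidableEq I] [Fintype ι] {θ : ι → ℝ} {d n : ℕ}
    {B C B' C' : ℝ} {s : I → ℕ} (h : Con θ d n B C s) (hB : 1 < B) (hBB : B ≤ B') (hC' : 1 < C')
    (hCC : C' ≤ C) : Con θ d n B' C' s := by
  intro a ha haC
  refine lt_of_le_of_lt ?_ (h a ha fun e i => (haC e i).trans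
    (pow_le_pow_left₀ (by linarith only [hC']) hCC n))
  exact inv_anti₀ (pow_pos (by linarith only [hB]) n)
    (pow_le_pow_left₀ (by linarith only [hB]) hBB n)

/-- **two-sided neighbourhoods** -/
theorem zeta_two {I ι : Type} [Fintype I] [DecidableEq I] [Fintype ι] (θ : ι → ℝ) (hθ : LM θ)
    (r : I → ℕ) (hr : ∀ i, 1 ≤ r i) (d : ℕ) :
    ∃ ε B C : ℝ, 0 < ε ∧ ε < 1 ∧ 1 < B ∧ 1 < C ∧ ∃ n0 : ℕ, ∀ n : ℕ, n0 ≤ n → ∀ s : I → ℕ,
      Function.Injective s → (∀ i, |(s i : ℝ) - r i * n| ≤ ε * n) → Con θ d n B C s := by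
  classical
  obtain ⟨ε, B, C, hε, hB, hC, n1, hmain⟩ := zeta_v θ hθ r hr d
  set R : ℝ := ∑ i, (r i : ℝ) with hR
  have hR0 : 0 ≤ R := sum_nonneg fun i _ => Nat.cast_nonneg _
  have hrR : ∀ i, (r i : ℝ) ≤ R := fun i =>
    single_le_sum (f := fun i => (r i : ℝ)) (fun _ _ => Nat.cast_nonneg _) (mem_univ i)
  set η : ℝ := ε / (2 * (R + ε + 1)) with hη
  have hη0 : 0 < η := by positivity
  have hη1 : η ≤ 1 / 2 := by
    rw [hη, div_le_div_iff₀ (by positivity) (by norm_num)]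
    nlinarith only [hR0, hε]
  set C' : ℝ := √(√C) with hC'
  have hC1 : 1 < C' := by
    rw [hC', Real.lt_sqrt (by norm_num), one_pow, Real.lt_sqrt (by norm_num), one_pow]
    exact hC
  have hC4 : C' ^ 4 = C := by
    have h1 : C' * C' = √C := Real.mul_self_sqrt (Real.sqrt_nonneg _)
    have h2 : √C * √C = C := Real.mul_self_sqrt (by linarith only [hC])
    rw [← h2, ← h1]
    ring
  obtain ⟨n2, hn2⟩ := exists_nat_ge (2 * (R + ε) / ε)
  refine ⟨η, B, C', hη0, by linarith only [hη1], hB, hC1, n2 + 4 * n1 + 4, fun n hn s hs hsr => ?_⟩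
  set m : ℕ := ⌊(1 - η) * n⌋₊ with hm
  have hnR : (n2 : ℝ) + 4 * n1 + 4 ≤ n := by exact_mod_cast hn
  have hn20 : (0 : ℝ) ≤ (n2 : ℝ) := Nat.cast_nonneg _
  have hn10 : (0 : ℝ) ≤ (n1 : ℝ) := Nat.cast_nonneg _
  have hm1 : (m : ℝ) ≤ (1 - η) * n := Nat.floor_le (by
    have : (0 : ℝ) ≤ n := Nat.cast_nonneg _
    exact mul_nonneg (by linarith only [hη1]) this)
  have hm2 : (1 - η) * n < m + 1 := Nat.lt_floor_add_one _
  have hn0 : (0 : ℝ) ≤ n := Nat.cast_nonneg _
  have hmn : m ≤ n := by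
    have h1 : (m : ℝ) ≤ n := by nlinarith only [hm1, hη0, hn0]
    exact_mod_cast h1
  have h4m : n ≤ 4 * m := by
    have h1 : (n : ℝ) ≤ 4 * m := by nlinarith only [hm2, hη1, hn0, hnR, hn20, hn10]
    exact_mod_cast h1
  have hm0 : n1 ≤ m := by omega
  have hcon := hmain m hm0 s hs (fun i => ?_)
  · intro a ha haC
    have h1 := hcon a ha (fun e i => (haC e i).trans ?_)
    · refine lt_of_le_of_lt ?_ h1
      exact inv_anti₀ (pow_pos (by linarith only [hB]) m) (pow_le_pow_right₀ hB.le hmn)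
    · rw [← hC4, ← pow_mul]
      exact pow_le_pow_right₀ hC1.le h4m
  · have h1 := abs_le.1 (hsr i)
    have hri : (1 : ℝ) ≤ r i := by exact_mod_cast hr i
    have hriR := hrR i
    constructor
    · have h2 : ((r i * m : ℕ) : ℝ) ≤ s i := by
        push_cast
        have h3 : (r i : ℝ) * m ≤ r i * ((1 - η) * n) := by gcongr
        have h4 : (r i : ℝ) * ((1 - η) * n) = r i * n - r i * (η * n) := by ring
        have h5 : η * n ≤ r i * (η * n) :=
          le_mul_of_one_le_left (mul_nonneg hη0.le hn0) hri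
        linarith only [h1.1, h3, h4, h5]
      exact_mod_cast h2
    · have h3 : (r i + ε) * ((1 - η) * n - 1) ≤ (r i + ε) * m := by
        refine mul_le_mul_of_nonneg_left ?_ (by linarith only [hri, hε])
        linarith only [hm2]
      have h4 : η * (r i + ε + 1) ≤ ε / 2 := by
        have h5 : η * (R + ε + 1) = ε / 2 := by
          rw [hη]
          field_simp
        have h6 : η * (r i + ε + 1) ≤ η * (R + ε + 1) := by gcongr
        linarith only [h5, h6]
      have h5 : (R + ε) ≤ ε / 2 * n := by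
        have h6 : 2 * (R + ε) / ε ≤ n := by linarith only [hn2, hnR, hn10]
        rw [div_le_iff₀ hε] at h6
        linarith only [h6]
      have h6 : η * (r i + ε + 1) * n ≤ ε / 2 * n := mul_le_mul_of_nonneg_right h4 hn0
      nlinarith only [h1.2, h3, h5, h6, hriR]

/-- **polynomials in `θ` and in the zeta values** -/
lemma Con.poly {k d n : ℕ} {θ B C : ℝ} {s : Fin k → ℕ}
    (h : Con (fun i : Fin (d + 1) => θ ^ (i : ℕ)) d n B C s) (P : MvPolynomial (Fin (k + 1)) ℤ)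
    (hP : P ≠ 0) (hPd : P.totalDegree ≤ d) (hPC : ∀ e, |((P.coeff e : ℤ) : ℝ)| ≤ C ^ n) :
    (B ^ n)⁻¹ < |MvPolynomial.aeval (Fin.cons θ fun i => ze (s i) : Fin (k + 1) → ℝ) P| := by
  classical
  have h3 := h (fun e i => P.coeff (exq (Fin.cons i e : Fin (k + 1) → Fin (d + 1)))) (by
      intro h0
      apply hP
      ext m
      rw [MvPolynomial.coeff_zero]
      by_contra hm
      obtain ⟨E, hE⟩ := exq_surj hPd (MvPolynomial.mem_support_iff.2 hm)
      apply hm
      rw [← hE, ← Fin.cons_self_tail E]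
      exact congrFun (congrFun h0 _) _) (fun e i => hPC _)
  have h5 : MvPolynomial.aeval (Fin.cons θ fun i => ze (s i) : Fin (k + 1) → ℝ) P =
      ∑ e : Fin k → Fin (d + 1), (∑ i : Fin (d + 1),
        ((P.coeff (exq (Fin.cons i e : Fin (k + 1) → Fin (d + 1))) : ℤ) : ℝ) * θ ^ (i : ℕ)) *
          ∏ i, ze (s i) ^ ((e i : Fin (d + 1)) : ℕ) := by
    rw [eval_exq' hPd, ← Equiv.sum_comp (Fin.consEquiv fun _ : Fin (k + 1) => Fin (d + 1)),
      Fintype.sum_prod_type_right]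
    refine sum_congr rfl fun e _ => ?_
    rw [sum_mul]
    refine sum_congr rfl fun i _ => ?_
    have h6 : (Fin.consEquiv fun _ : Fin (k + 1) => Fin (d + 1)) (i, e) =
        (Fin.cons i e : Fin (k + 1) → Fin (d + 1)) := rfl
    rw [h6, Fin.prod_univ_succ, mul_assoc]
    simp only [Fin.cons_zero, Fin.cons_succ]
  rw [h5]
  exact h3

/-- **linear combinations of polynomials in the zeta values** -/
lemma Con.lin {k d n : ℕ} {ι : Type} [Fintype ι] {θ : ι → ℝ} {B C : ℝ} {s : Fin k → ℕ}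
    (h : Con θ d n B C s) (P : ι → MvPolynomial (Fin k) ℤ)
    (hP : P ≠ 0) (hPd : ∀ i, (P i).totalDegree ≤ d)
    (hPC : ∀ i e, |(((P i).coeff e : ℤ) : ℝ)| ≤ C ^ n) :
    (B ^ n)⁻¹ < |∑ i, θ i * MvPolynomial.aeval (fun i => ze (s i)) (P i)| := by
  classical
  have h3 := h (fun e i => (P i).coeff (exq e)) (by
      intro h0
      apply hP
      funext i
      ext m
      rw [Pi.zero_apply, MvPolynomial.coeff_zero]
      by_contra hm
      obtain ⟨E, hE⟩ := exq_surj (hPd i) (MvPolynomial.mem_support_iff.2 hm)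
      apply hm
      rw [← hE]
      exact congrFun (congrFun h0 _) _) (fun e i => hPC _ _)
  have h5 : ∑ i, θ i * MvPolynomial.aeval (fun i => ze (s i)) (P i) =
      ∑ e : Fin k → Fin (d + 1), (∑ i, (((P i).coeff (exq e) : ℤ) : ℝ) * θ i) *
          ∏ i, ze (s i) ^ ((e i : Fin (d + 1)) : ℕ) := by
    have h6 : ∀ i, θ i * MvPolynomial.aeval (fun i => ze (s i)) (P i) =
        ∑ e : Fin k → Fin (d + 1), ((((P i).coeff (exq e) : ℤ) : ℝ) * θ i) *
          ∏ i, ze (s i) ^ ((e i : Fin (d + 1)) : ℕ) := by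
      intro i
      rw [eval_exq' (hPd i), mul_sum]
      refine sum_congr rfl fun e _ => ?_
      ring
    simp only [h6, sum_mul]
    exact sum_comm
  rw [h5]
  exact h3

end Pool.Agent.Y760.PZ
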