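import Pool.Agent.TH120.HM.Cor
import Pool.Agent.H312R3.M34.Cor
import Pool.Agent.Y760.PZ.Two

/-!
# `π` and zeta values at nearby arguments (helper760)
-/

set_option autoImplicit false

namespace Pool.Agent.Y760.PZ

open Finset Filter Topology Pool.Agent.TH456.TM

/-- `1, π ^ 2, ζ(3)` -/
lemma LM_two : LM ![1, Real.pi ^ 2, ze 3] := by
  obtain ⟨c, hc, h⟩ := Pool.Agent.TH120.HM.measure_all
  have e2 : Pool.Agent.H337R2.zr 2 = Real.pi ^ 2 / 6 := Pool.Agent.LZ.Z2_value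
  refine ⟨227, c * 6 ^ (-227 : ℝ), by norm_num, by positivity, fun q hq H hH hqH => ?_⟩
  have hH0 : (0 : ℝ) < H := by linarith only [hH]
  have h1 := h (q 0) (6 * q 1) (q 2) (6 * H) (by linarith only [hH]) (by
      rintro ⟨h0, h1, h2⟩
      apply hq
      funext i
      fin_cases i
      · exact h0
      · show q 1 = 0
        omega
      · exact h2) (by
      push_cast
      rw [abs_mul, abs_of_pos (by norm_num : (0 : ℝ) < 6)]
      have := hqH 1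
      linarith only [this]) (by
      have := hqH 2
      linarith only [this, hH0])
  have e3 : ((q 0 : ℤ) : ℝ) + ((6 * q 1 : ℤ) : ℝ) * Pool.Agent.H337R2.zr 2 +
      ((q 2 : ℤ) : ℝ) * Pool.Agent.H337R2.zr 3 =
      ∑ i, (q i : ℝ) * (![1, Real.pi ^ 2, ze 3] : Fin 3 → ℝ) i := by
    rw [e2, Fin.sum_univ_three]
    show _ = (q 0 : ℝ) * 1 + q 1 * Real.pi ^ 2 + q 2 * Pool.Agent.H337R2.zr 3
    push_cast
    ring
  rw [e3, Real.mul_rpow (by norm_num) hH0.le] at h1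
  have h2 : H ^ (227 : ℝ) * H ^ (-227 : ℝ) = 1 := by
    rw [← Real.rpow_add hH0]
    norm_num
  calc c * 6 ^ (-227 : ℝ) = H ^ (227 : ℝ) * (c * (6 ^ (-227 : ℝ) * H ^ (-227 : ℝ))) := by
        rw [show H ^ (227 : ℝ) * (c * (6 ^ (-227 : ℝ) * H ^ (-227 : ℝ))) =
          c * 6 ^ (-227 : ℝ) * (H ^ (227 : ℝ) * H ^ (-227 : ℝ)) by ring, h2, mul_one]
    _ ≤ _ := mul_le_mul_of_nonneg_left h1 (by positivity)

/-- `1, π ^ 4, ζ(3)` -/
lemma LM_four : LM ![1, Real.pi ^ 4, ze 3] := by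
  obtain ⟨c, hc, κ, h⟩ := Pool.Agent.ZF.Mea.pi_all
  refine ⟨κ, c, Nat.cast_nonneg _, hc, fun q hq H hH hqH => ?_⟩
  have hH0 : (0 : ℝ) < H := by linarith only [hH]
  have h1 := h (q 0) (q 2) (q 1) (by
      rintro ⟨h0, h1, h2⟩
      apply hq
      funext i
      fin_cases i
      · exact h0
      · exact h2
      · exact h1) H hH (hqH 2) (hqH 1)
  have e3 : ((q 0 : ℤ) : ℝ) + ((q 2 : ℤ) : ℝ) * Pool.Agent.H337R2.zr 3 +
      ((q 1 : ℤ) : ℝ) * Real.pi ^ 4 =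
      ∑ i, (q i : ℝ) * (![1, Real.pi ^ 4, ze 3] : Fin 3 → ℝ) i := by
    rw [Fin.sum_univ_three]
    show _ = (q 0 : ℝ) * 1 + q 1 * Real.pi ^ 4 + q 2 * Pool.Agent.H337R2.zr 3
    ring
  rw [e3, div_le_iff₀ (by positivity)] at h1
  rw [Real.rpow_natCast, mul_comm]
  exact h1

/-- **the final theorem** -/
theorem fin_main (k d : ℕ) (r : Fin k → ℕ) (hr : ∀ i, 1 ≤ r i) :
    ∃ ε B C : ℝ, 0 < ε ∧ ε < 1 ∧ 1 < B ∧ 1 < C ∧ ∃ n0 : ℕ, ∀ n : ℕ, n0 ≤ n → ∀ s : Fin k → ℕ,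
      Function.Injective s → (∀ i, |(s i : ℝ) - r i * n| ≤ ε * n) →
      (∀ P : MvPolynomial (Fin (k + 1)) ℤ, P ≠ 0 → P.totalDegree ≤ d →
        (∀ e, |((P.coeff e : ℤ) : ℝ)| ≤ C ^ n) →
        (B ^ n)⁻¹ < |MvPolynomial.aeval
          (Fin.cons Real.pi fun i => ze (s i) : Fin (k + 1) → ℝ) P|) ∧
      (∀ v : ℕ, v = 2 ∨ v = 4 → ∀ P : Fin 3 → MvPolynomial (Fin k) ℤ, P ≠ 0 →
        (∀ j, (P j).totalDegree ≤ d) → (∀ j e, |(((P j).coeff e : ℤ) : ℝ)| ≤ C ^ n) →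
        (B ^ n)⁻¹ < |MvPolynomial.aeval (fun i => ze (s i)) (P 0) +
          Real.pi ^ v * MvPolynomial.aeval (fun i => ze (s i)) (P 1) +
          ze 3 * MvPolynomial.aeval (fun i => ze (s i)) (P 2)|) := by
  obtain ⟨ε1, B1, C1, h1, h2, h3, h4, n1, H1⟩ := zeta_two _ (LM_pow measT_pi d) r hr d
  obtain ⟨ε2, B2, C2, i1, i2, i3, i4, n2, H2⟩ := zeta_two _ LM_two r hr d
  obtain ⟨ε3, B3, C3, j1, j2, j3, j4, n3, H3⟩ := zeta_two _ LM_four r hr d
  refine ⟨min ε1 (min ε2 ε3), max B1 (max B2 B3), min C1 (min C2 C3),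
    lt_min h1 (lt_min i1 j1), (min_le_left _ _).trans_lt h2, h3.trans_le (le_max_left _ _),
    lt_min h4 (lt_min i4 j4), n1 + n2 + n3, fun n hn s hs hsr => ?_⟩
  have hn0 : (0 : ℝ) ≤ n := Nat.cast_nonneg _
  have hC : 1 < min C1 (min C2 C3) := lt_min h4 (lt_min i4 j4)
  have K1 := (H1 n (by omega) s hs fun i => (hsr i).trans
    (mul_le_mul_of_nonneg_right (min_le_left _ _) hn0)).mono h3
    (le_max_left B1 (max B2 B3)) hC (min_le_left _ _)
  have K2 := (H2 n (by omega) s hs fun i => (hsr i).trans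
    (mul_le_mul_of_nonneg_right ((min_le_right _ _).trans (min_le_left _ _)) hn0)).mono i3
    ((le_max_left _ _).trans (le_max_right B1 (max B2 B3))) hC
    ((min_le_right _ _).trans (min_le_left _ _))
  have K3 := (H3 n (by omega) s hs fun i => (hsr i).trans
    (mul_le_mul_of_nonneg_right ((min_le_right _ _).trans (min_le_right _ _)) hn0)).mono j3
    ((le_max_right _ _).trans (le_max_right B1 (max B2 B3))) hC
    ((min_le_right _ _).trans (min_le_right _ _))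
  refine ⟨fun P hP hPd hPC => K1.poly P hP hPd hPC, fun v hv P hP hPd hPC => ?_⟩
  rcases hv with rfl | rfl
  · have := K2.lin P hP hPd hPC
    rw [Fin.sum_univ_three] at this
    simpa using this
  · have := K3.lin P hP hPd hPC
    rw [Fin.sum_univ_three] at this
    simpa using this

end Pool.Agent.Y760.PZ
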