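import Pool.Agent.Y760.PZ.Ser

/-!
# Monomials in the series `ζ (r n + δ)` are independent, uniformly in `δ` (helper760)
-/

set_option autoImplicit false

namespace Pool.Agent.Y760.PZ

open Finset Filter Topology Pool.Agent.TH507.ZS Pool.Agent.TH883.Zg

lemma mul_pp {p : ℕ} (hp : p.Prime) (f g : ArithmeticFunction ℚ) (a : ℕ) :
    (f * g) (p ^ a) = ∑ i ∈ range (a + 1), f (p ^ i) * g (p ^ (a - i)) := by
  rw [ArithmeticFunction.mul_apply, Nat.sum_divisorsAntidiagonal (fun x y => f x * g y),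
    Nat.sum_divisors_prime_pow hp]
  refine sum_congr rfl fun i hi => ?_
  rw [mem_range] at hi
  rw [Nat.pow_div (by omega) hp.pos]

lemma mul_pp' {p : ℕ} (hp : p.Prime) (f g : ArithmeticFunction ℚ) {j : ℕ} (hj : 1 ≤ j)
    (h1 : f 1 = 1) (h0 : ∀ i, 1 ≤ i → i < j → f (p ^ i) = 0) :
    (f * g) (p ^ j) = g (p ^ j) + f (p ^ j) * g 1 := by
  obtain ⟨b, rfl⟩ : ∃ b, j = b + 1 := ⟨j - 1, by omega⟩
  rw [mul_pp hp, sum_range_succ, sum_range_succ', sum_eq_zero]
  · simp [h1]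
  · intro i hi
    rw [mem_range] at hi
    rw [h0 (i + 1) (by omega) (by omega), zero_mul]

/-- `f(1) = 1`, `f(p ^ j) = 0` for `0 < j < r`, `f(p ^ r) = c` -/
structure LT (p r : ℕ) (f : ArithmeticFunction ℚ) (c : ℚ) : Prop where
  one : f 1 = 1
  zero : ∀ j, 1 ≤ j → j < r → f (p ^ j) = 0
  top : f (p ^ r) = c

lemma LT.unit {p r : ℕ} (hp : p.Prime) (hr : r ≠ 0) : LT p r 1 0 where
  one := ArithmeticFunction.one_one
  zero := fun j hj _ => ArithmeticFunction.one_apply_ne (Nat.one_lt_pow (by omega) hp.one_lt).ne'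
  top := ArithmeticFunction.one_apply_ne (Nat.one_lt_pow hr hp.one_lt).ne'

lemma LT.mul {p r : ℕ} (hp : p.Prime) (hr : r ≠ 0) {f g : ArithmeticFunction ℚ} {c c' : ℚ}
    (hf : LT p r f c) (hg : LT p r g c') : LT p r (f * g) (c + c') where
  one := by
    rw [ArithmeticFunction.mul_apply]
    simp [hf.one, hg.one]
  zero := fun j hj hjr => by
    rw [mul_pp' hp f g hj hf.one (fun i hi hij => hf.zero i hi (by omega)), hf.zero j hj hjr,
      hg.zero j hj hjr]
    simp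
  top := by
    rw [mul_pp' hp f g (Nat.one_le_iff_ne_zero.2 hr) hf.one hf.zero, hf.top, hg.top, hg.one]
    ring

lemma LT.pow {p r : ℕ} (hp : p.Prime) (hr : r ≠ 0) {f : ArithmeticFunction ℚ} {c : ℚ}
    (hf : LT p r f c) (e : ℕ) : LT p r (f ^ e) (e * c) := by
  induction e with
  | zero =>
    rw [pow_zero, Nat.cast_zero, zero_mul]
    exact LT.unit hp hr
  | succ e ih =>
    rw [pow_succ, Nat.cast_succ, add_mul, one_mul]
    exact ih.mul hp hr hf

lemma LT.prod {p r : ℕ} (hp : p.Prime) (hr : r ≠ 0) {ι : Type} (s : Finset ι)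
    (f : ι → ArithmeticFunction ℚ) (c : ι → ℚ) (h : ∀ i ∈ s, LT p r (f i) (c i)) :
    LT p r (∏ i ∈ s, f i) (∑ i ∈ s, c i) := by
  classical
  induction s using Finset.induction_on with
  | empty => simpa using LT.unit hp hr
  | insert a s ha ih =>
    rw [prod_insert ha, sum_insert ha]
    exact (h a (mem_insert_self _ _)).mul hp hr (ih fun i hi => h i (mem_insert_of_mem hi))

lemma pw_pp {p : ℕ} (hp : p.Prime) {r : ℕ} (δ : ℕ) {j : ℕ} (hj : ¬ r ∣ j) :
    pw r δ (p ^ j) = 0 := by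
  refine pw_ne δ fun l hl => hj ?_
  have h1 : (l ^ r).factorization p = j := by rw [hl, Nat.Prime.factorization_pow hp]; simp
  rw [Nat.factorization_pow] at h1
  exact ⟨l.factorization p, h1.symm⟩

lemma LT_pw {p : ℕ} (hp : p.Prime) {r : ℕ} (hr : r ≠ 0) (δ : ℕ) :
    LT p r (pw r δ) (1 / (p : ℚ) ^ δ) where
  one := pw_one hr δ
  zero := fun j hj hjr => pw_pp hp δ fun h => by
    have := Nat.le_of_dvd (by omega) h
    omega
  top := pw_pow hr δ hp.ne_zero

lemma LT_pw' {p : ℕ} (hp : p.Prime) {r r' : ℕ} (hr : r ≠ 0) (hrr : r < r') (δ : ℕ) :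
    LT p r (pw r' δ) 0 where
  one := pw_one (by omega) δ
  zero := fun j hj hjr => pw_pp hp δ fun h => by
    have := Nat.le_of_dvd (by omega) h
    omega
  top := pw_pp hp δ fun h => by
    have := Nat.le_of_dvd (by omega) h
    omega

/-- small digits -/
lemma digits {ι : Type} (s : Finset ι) (c : ι → ℤ) (δ : ι → ℕ)
    (hδ : ∀ i ∈ s, ∀ j ∈ s, δ i = δ j → i = j) {d : ℕ} (hc : ∀ i ∈ s, |c i| ≤ d) {p : ℕ}
    (hp : p.Prime) (hpd : d < p) (h : ∑ i ∈ s, (c i : ℚ) * (1 / (p : ℚ) ^ (δ i)) = 0) :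
    ∀ i ∈ s, c i = 0 := by
  classical
  by_contra hcon
  push Not at hcon
  obtain ⟨i1, hi1, hci1⟩ := hcon
  obtain ⟨i0, hi0, hmax⟩ := exists_max_image (s.filter fun i => c i ≠ 0) δ
    ⟨i1, mem_filter.2 ⟨hi1, hci1⟩⟩
  rw [mem_filter] at hi0
  have hp0 : (p : ℚ) ≠ 0 := by exact_mod_cast hp.ne_zero
  have h1 : ∑ i ∈ s.filter (fun i => c i ≠ 0), c i * (p : ℤ) ^ (δ i0 - δ i) = 0 := by
    have h2 : ∑ i ∈ s.filter (fun i => c i ≠ 0), (c i : ℚ) * (1 / (p : ℚ) ^ (δ i)) = 0 := by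
      rw [← h]
      refine sum_subset (filter_subset _ _) fun i hi hi' => ?_
      have h3 : c i = 0 := by
        by_contra h4
        exact hi' (mem_filter.2 ⟨hi, h4⟩)
      rw [h3]
      simp
    have h3 : ∑ i ∈ s.filter (fun i => c i ≠ 0), (c i : ℚ) * (p : ℚ) ^ (δ i0 - δ i) = 0 := by
      have h4 : ∑ i ∈ s.filter (fun i => c i ≠ 0), (c i : ℚ) * (p : ℚ) ^ (δ i0 - δ i) =
          (p : ℚ) ^ (δ i0) * ∑ i ∈ s.filter (fun i => c i ≠ 0), (c i : ℚ) * (1 / (p : ℚ) ^ (δ i)) := by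
        rw [mul_sum]
        refine sum_congr rfl fun i hi => ?_
        rw [← Nat.sub_add_cancel (hmax i hi), pow_add, Nat.sub_add_cancel (hmax i hi)]
        field_simp
      rw [h4, h2, mul_zero]
    exact_mod_cast h3
  rw [← add_sum_erase _ _ (mem_filter.2 hi0), Nat.sub_self, pow_zero, mul_one] at h1
  have h2 : (p : ℤ) ∣ ∑ i ∈ (s.filter fun i => c i ≠ 0).erase i0, c i * (p : ℤ) ^ (δ i0 - δ i) := by
    refine dvd_sum fun i hi => ?_
    rw [mem_erase] at hi
    have h3 := hmax i hi.2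
    have h4 : δ i ≠ δ i0 := fun h5 => hi.1 (hδ i (mem_filter.1 hi.2).1 i0 hi0.1 h5)
    exact dvd_mul_of_dvd_right (dvd_pow_self _ (by omega)) _
  have h3 : (p : ℤ) ∣ c i0 := by
    have h4 : c i0 = -∑ i ∈ (s.filter fun i => c i ≠ 0).erase i0, c i * (p : ℤ) ^ (δ i0 - δ i) := by
      linarith only [h1]
    rw [h4]
    exact (dvd_neg).2 h2
  refine hi0.2 (Int.eq_zero_of_abs_lt_dvd h3 ?_)
  have h5 := hc i0 hi0.1
  have h6 : (d : ℤ) < p := by exact_mod_cast hpd
  linarith only [h5, h6]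

section

variable {I : Type} [Fintype I] (r : I → ℕ)

/-- monomials -/
noncomputable def Mo (δ : I → ℕ) {d : ℕ} (e : I → Fin (d + 1)) : ArithmeticFunction ℚ :=
  ∏ i, pw (r i) (δ i) ^ ((e i : Fin (d + 1)) : ℕ)

lemma pow_mult {f : ArithmeticFunction ℚ} (hf : f.IsMultiplicative) (e : ℕ) :
    (f ^ e).IsMultiplicative := by
  induction e with
  | zero =>
    rw [pow_zero]
    exact ArithmeticFunction.isMultiplicative_one
  | succ e ih =>
    rw [pow_succ]
    exact ih.mul hf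

lemma prod_mult {ι : Type} (s : Finset ι) (f : ι → ArithmeticFunction ℚ)
    (h : ∀ i ∈ s, (f i).IsMultiplicative) : (∏ i ∈ s, f i).IsMultiplicative := by
  classical
  induction s using Finset.induction_on with
  | empty =>
    rw [prod_empty]
    exact ArithmeticFunction.isMultiplicative_one
  | insert a s ha ih =>
    rw [prod_insert ha]
    exact (h a (mem_insert_self _ _)).mul (ih fun i hi => h i (mem_insert_of_mem hi))

lemma Mo_mult (hr : ∀ i, r i ≠ 0) (δ : I → ℕ) {d : ℕ} (e : I → Fin (d + 1)) :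
    (Mo r δ e).IsMultiplicative :=
  prod_mult _ _ fun i _ => pow_mult (pw_mult (hr i) (δ i)) _

/-- **separation** of monomials at the powers of the primes `p > d` -/
lemma separate (hr : ∀ i, r i ≠ 0) (δ : I → ℕ) (hδ : ∀ i j, r i = r j → δ i = δ j → i = j) {d : ℕ}
    (e e' : I → Fin (d + 1)) (hee : e ≠ e') :
    ∃ a : ℕ, 1 ≤ a ∧ a ≤ ∑ i, r i ∧ ∀ p : ℕ, p.Prime → d < p →
      Mo r δ e (p ^ a) ≠ Mo r δ e' (p ^ a) := by
  classical
  obtain ⟨i1, hi1⟩ := Function.ne_iff.1 hee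
  obtain ⟨i0, hi0, hmin⟩ := exists_min_image (univ.filter fun i => e i ≠ e' i) r
    ⟨i1, mem_filter.2 ⟨mem_univ _, hi1⟩⟩
  rw [mem_filter] at hi0
  refine ⟨r i0, Nat.one_le_iff_ne_zero.2 (hr i0),
    single_le_sum (f := r) (fun _ _ => Nat.zero_le _) (mem_univ i0), fun p hp hpd heq => ?_⟩
  have hval : ∀ f : I → Fin (d + 1), Mo r δ f (p ^ (r i0)) =
      (∏ i ∈ univ.filter (fun i => r i < r i0), pw (r i) (δ i) ^ ((f i : Fin (d + 1)) : ℕ))
        (p ^ (r i0)) +
      (∑ i ∈ univ.filter (fun i => r i = r i0), (((f i : Fin (d + 1)) : ℕ) : ℚ) *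
        (1 / (p : ℚ) ^ (δ i))) := by
    intro f
    have h1 : Mo r δ f = (∏ i ∈ univ.filter (fun i => ¬ r i < r i0),
        pw (r i) (δ i) ^ ((f i : Fin (d + 1)) : ℕ)) *
        ∏ i ∈ univ.filter (fun i => r i < r i0), pw (r i) (δ i) ^ ((f i : Fin (d + 1)) : ℕ) := by
      rw [mul_comm]
      exact (prod_filter_mul_prod_filter_not univ (fun i => r i < r i0) _).symm
    have h2 : LT p (r i0) (∏ i ∈ univ.filter (fun i => ¬ r i < r i0),
        pw (r i) (δ i) ^ ((f i : Fin (d + 1)) : ℕ))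
        (∑ i ∈ univ.filter (fun i => ¬ r i < r i0), if r i = r i0 then
          (((f i : Fin (d + 1)) : ℕ) : ℚ) * (1 / (p : ℚ) ^ (δ i)) else 0) := by
      refine LT.prod hp (hr i0) _ _ _ fun i hi => ?_
      rw [mem_filter] at hi
      by_cases h3 : r i = r i0
      · rw [if_pos h3]
        refine LT.pow hp (hr i0) ?_ _
        rw [← h3]
        exact LT_pw hp (hr i) (δ i)
      · rw [if_neg h3]
        have h4 := LT.pow hp (hr i0) (LT_pw' hp (hr i0) (show r i0 < r i by omega) (δ i))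
          ((f i : Fin (d + 1)) : ℕ)
        rwa [mul_zero] at h4
    have h3 : (∏ i ∈ univ.filter (fun i => r i < r i0),
        pw (r i) (δ i) ^ ((f i : Fin (d + 1)) : ℕ)) 1 = 1 :=
      (prod_mult _ _ fun i _ => pow_mult (pw_mult (hr i) (δ i)) _).1
    rw [h1, mul_pp' hp _ _ (Nat.one_le_iff_ne_zero.2 (hr i0)) h2.one h2.zero, h2.top, h3, mul_one]
    congr 1
    rw [← sum_filter, filter_filter]
    refine sum_congr ?_ fun _ _ => rfl
    ext i
    simp only [mem_filter, mem_univ, true_and]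
    omega
  rw [hval e, hval e'] at heq
  have h1 : ∏ i ∈ univ.filter (fun i => r i < r i0), pw (r i) (δ i) ^ ((e i : Fin (d + 1)) : ℕ) =
      ∏ i ∈ univ.filter (fun i => r i < r i0), pw (r i) (δ i) ^ ((e' i : Fin (d + 1)) : ℕ) := by
    refine prod_congr rfl fun i hi => ?_
    rw [mem_filter] at hi
    have h2 : e i = e' i := by
      by_contra h3
      have := hmin i (mem_filter.2 ⟨mem_univ _, h3⟩)
      omega
    rw [h2]
  rw [h1] at heq
  have h2 := add_left_cancel heq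
  have h3 := digits (univ.filter fun i => r i = r i0)
    (fun i => (((e i : Fin (d + 1)) : ℕ) : ℤ) - (((e' i : Fin (d + 1)) : ℕ) : ℤ)) δ
    (fun i hi j hj => by
      rw [mem_filter] at hi hj
      exact hδ i j (hi.2.trans hj.2.symm)) (d := d)
    (fun i _ => by
      have h4 := (e i).2
      have h5 := (e' i).2
      rw [abs_le]
      constructor <;> omega) hp hpd (by
      have h4 : ∀ i ∈ univ.filter (fun i => r i = r i0),
          (((((e i : Fin (d + 1)) : ℕ) : ℤ) - (((e' i : Fin (d + 1)) : ℕ) : ℤ) : ℤ) : ℚ) *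
          (1 / (p : ℚ) ^ (δ i)) =
          (((e i : Fin (d + 1)) : ℕ) : ℚ) * (1 / (p : ℚ) ^ (δ i)) -
          (((e' i : Fin (d + 1)) : ℕ) : ℚ) * (1 / (p : ℚ) ^ (δ i)) := by
        intro i _
        push_cast
        ring
      rw [sum_congr rfl h4, sum_sub_distrib, h2, sub_self]) i0
    (mem_filter.2 ⟨mem_univ _, rfl⟩)
  apply hi0.2
  apply Fin.ext
  omega

/-- **uniform rank** -/
theorem rank_u [DecidableEq I] (hr : ∀ i, r i ≠ 0) (d : ℕ) :
    ∃ K : ℕ, 1 ≤ K ∧ ∀ δ : I → ℕ, (∀ i j, r i = r j → δ i = δ j → i = j) →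
      ∀ c : (I → Fin (d + 1)) → ℚ, (∀ m ∈ Icc 1 K, ∑ e, c e * Mo r δ e m = 0) → c = 0 := by
  classical
  have hinf : {p : ℕ | p.Prime ∧ d < p}.Infinite := by
    rw [Set.infinite_iff_exists_gt]
    intro n
    obtain ⟨p, hp1, hp2⟩ := Nat.exists_infinite_primes (n + d + 1)
    exact ⟨p, ⟨hp2, by omega⟩, by omega⟩
  let emb := Set.Infinite.natEmbedding _ hinf
  let En := Fintype.equivFin (I → Fin (d + 1))
  set P : (I → Fin (d + 1)) → ℕ := fun e => (emb (En e : ℕ) : ℕ) with hP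
  have hPp : ∀ e, (P e).Prime ∧ d < P e := fun e => (emb (En e : ℕ)).2
  have hPi : ∀ e e', P e = P e' → e = e' := by
    intro e e' h
    have h1 : emb (En e : ℕ) = emb (En e' : ℕ) := Subtype.ext h
    exact En.injective (Fin.ext (emb.injective h1))
  set R : ℕ := ∑ i, r i with hR
  refine ⟨∏ e, P e ^ R, Nat.one_le_iff_ne_zero.2 (prod_ne_zero_iff.2 fun e _ =>
    pow_ne_zero _ (hPp e).1.ne_zero), fun δ hδ c hc => ?_⟩
  funext e0
  have hsep : ∀ e, ∃ a : ℕ, a ≤ R ∧ (e0 ≠ e → ∀ p : ℕ, p.Prime → d < p →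
      Mo r δ e0 (p ^ a) ≠ Mo r δ e (p ^ a)) := by
    intro e
    by_cases h : e0 = e
    · exact ⟨0, Nat.zero_le _, fun h2 => absurd h h2⟩
    · obtain ⟨a, _, ha, h3⟩ := separate r hr δ hδ e0 e h
      exact ⟨a, ha, fun _ => h3⟩
  choose a ha hsep using hsep
  set x : (I → Fin (d + 1)) → (I → Fin (d + 1)) → ℚ := fun e' e => Mo r δ e' (P e ^ a e) with hx
  have hprod : ∀ (t : Finset (I → Fin (d + 1))) (e' : I → Fin (d + 1)),
      ∏ e ∈ t, x e' e = Mo r δ e' (∏ e ∈ t, P e ^ a e) := by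
    intro t e'
    rw [ArithmeticFunction.IsMultiplicative.map_prod _ (Mo_mult r hr δ e')]
    intro e _ f _ hef
    exact Nat.Coprime.pow _ _ ((Nat.coprime_primes (hPp e).1 (hPp f).1).2
      fun h => hef (hPi e f h))
  have hle : ∀ t : Finset (I → Fin (d + 1)), (∏ e ∈ t, P e ^ a e) ∈ Icc 1 (∏ e, P e ^ R) := by
    intro t
    rw [mem_Icc]
    refine ⟨Nat.one_le_iff_ne_zero.2 (prod_ne_zero_iff.2 fun e _ =>
      pow_ne_zero _ (hPp e).1.ne_zero), ?_⟩
    calc ∏ e ∈ t, P e ^ a e ≤ ∏ e ∈ t, P e ^ R :=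
          prod_le_prod' fun e _ => Nat.pow_le_pow_right (hPp e).1.pos (ha e)
      _ ≤ ∏ e, P e ^ R := prod_le_prod_of_subset_of_one_le' (subset_univ t) fun e _ _ =>
          Nat.one_le_pow _ _ (hPp e).1.pos
  have hmain : ∑ e', c e' * ∏ e ∈ univ.erase e0, (x e' e + -(x e e)) = 0 := by
    have h1 : ∀ e', ∏ e ∈ univ.erase e0, (x e' e + -(x e e)) =
        ∑ t ∈ (univ.erase e0).powerset, Mo r δ e' (∏ e ∈ t, P e ^ a e) *
          ∏ e ∈ univ.erase e0 \ t, -(x e e) := by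
      intro e'
      rw [prod_add]
      refine sum_congr rfl fun t _ => ?_
      rw [hprod t e']
    simp only [h1, mul_sum]
    rw [sum_comm]
    refine sum_eq_zero fun t _ => ?_
    have h2 := hc _ (hle t)
    have h3 : ∀ e', c e' * (Mo r δ e' (∏ e ∈ t, P e ^ a e) * ∏ e ∈ univ.erase e0 \ t, -(x e e)) =
        (c e' * Mo r δ e' (∏ e ∈ t, P e ^ a e)) * ∏ e ∈ univ.erase e0 \ t, -(x e e) := by
      intro e'
      ring
    rw [sum_congr rfl fun e' _ => h3 e', ← sum_mul, h2, zero_mul]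
  rw [sum_eq_single e0] at hmain
  · rcases mul_eq_zero.1 hmain with h | h
    · rw [h]
      rfl
    · exfalso
      obtain ⟨e, he, h1⟩ := prod_eq_zero_iff.1 h
      rw [mem_erase] at he
      exact hsep e (Ne.symm he.1) (P e) (hPp e).1 (hPp e).2 (by
        have h2 : x e0 e = x e e := by linarith only [h1]
        exact h2)
  · intro e' _ he'
    rw [prod_eq_zero (mem_erase.2 ⟨he', mem_univ e'⟩) (add_neg_cancel _), mul_zero]
  · intro h
    exact absurd (mem_univ _) h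

end

end Pool.Agent.Y760.PZ
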