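import Pool.Agent.TH883.Zg.Alg

/-!
# Uniform bounds for products of Dirichlet series; the series supported on perfect powers (helper760)
-/

set_option autoImplicit false

namespace Pool.Agent.Y760.PZ

open Finset Filter Topology Pool.Agent.TH507.ZS Pool.Agent.TH883.Zg

/-- the constant of a product -/
lemma mul_bd {f g : ArithmeticFunction ℚ} {A B : ℕ}
    (hA : ∀ k : ℕ, 1 ≤ k → |(f k : ℝ)| ≤ A * (k : ℝ) ^ A)
    (hB : ∀ k : ℕ, 1 ≤ k → |(g k : ℝ)| ≤ B * (k : ℝ) ^ B) (k : ℕ) (hk : 1 ≤ k) :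
    |((f * g : ArithmeticFunction ℚ) k : ℝ)| ≤
      ((A * B + (A + B + 1) : ℕ) : ℝ) * (k : ℝ) ^ (A * B + (A + B + 1)) := by
  have hk1 : (1 : ℝ) ≤ k := by exact_mod_cast hk
  rw [ArithmeticFunction.mul_apply]
  push_cast
  have h1 : ∀ x ∈ k.divisorsAntidiagonal, |(f x.1 : ℝ) * (g x.2 : ℝ)| ≤
      A * B * (k : ℝ) ^ (A + B) := by
    intro x hx
    have hx' := Nat.mem_divisorsAntidiagonal.1 hx
    have h2 := Nat.ne_zero_of_mem_divisorsAntidiagonal hx
    have h3 := hA x.1 (Nat.pos_of_ne_zero h2.1)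
    have h4 := hB x.2 (Nat.pos_of_ne_zero h2.2)
    have h5 : (x.1 : ℝ) ≤ k := by
      exact_mod_cast Nat.le_of_dvd (by omega) ⟨x.2, hx'.1.symm⟩
    have h6 : (x.2 : ℝ) ≤ k := by
      exact_mod_cast Nat.le_of_dvd (by omega) (⟨x.1, by rw [mul_comm]; exact hx'.1.symm⟩ : x.2 ∣ k)
    rw [abs_mul]
    calc |(f x.1 : ℝ)| * |(g x.2 : ℝ)| ≤ (A * (x.1 : ℝ) ^ A) * (B * (x.2 : ℝ) ^ B) :=
          mul_le_mul h3 h4 (abs_nonneg _) (by positivity)
      _ ≤ (A * (k : ℝ) ^ A) * (B * (k : ℝ) ^ B) := by gcongr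
      _ = _ := by rw [pow_add]; ring
  calc |∑ x ∈ k.divisorsAntidiagonal, (f x.1 : ℝ) * (g x.2 : ℝ)| ≤
      ∑ x ∈ k.divisorsAntidiagonal, |(f x.1 : ℝ) * (g x.2 : ℝ)| := Finset.abs_sum_le_sum_abs _ _
    _ ≤ ∑ _x ∈ k.divisorsAntidiagonal, A * B * (k : ℝ) ^ (A + B) := Finset.sum_le_sum h1
    _ = k.divisorsAntidiagonal.card * (A * B * (k : ℝ) ^ (A + B)) := by
      rw [Finset.sum_const, nsmul_eq_mul]
    _ ≤ k * (A * B * (k : ℝ) ^ (A + B)) := by
      have h2 : (k.divisorsAntidiagonal.card : ℝ) ≤ k := by exact_mod_cast card_anti k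
      gcongr
    _ = (A * B) * (k : ℝ) ^ (A + B + 1) := by rw [pow_succ]; ring
    _ ≤ (A * B + (A + B + 1)) * (k : ℝ) ^ (A * B + (A + B + 1)) := by
      have h3 : (0 : ℝ) ≤ A * B := by positivity
      refine mul_le_mul ?_ (pow_le_pow_right₀ hk1 (by omega)) (by positivity) (by positivity)
      have : (0 : ℝ) ≤ A + B + 1 := by positivity
      linarith

/-- the product of two series, with an explicit range -/
lemma dser_mul_bd {f g : ArithmeticFunction ℚ} {A B n : ℕ}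
    (hA : ∀ k : ℕ, 1 ≤ k → |(f k : ℝ)| ≤ A * (k : ℝ) ^ A)
    (hB : ∀ k : ℕ, 1 ≤ k → |(g k : ℝ)| ≤ B * (k : ℝ) ^ B)
    (hn : A + B + (A * B + (A + B + 1)) + 2 ≤ n) :
    dser (f * g : ArithmeticFunction ℚ) n = dser f n * dser g n := by
  have h1 := dser_eq hA (show A + 2 ≤ n by omega)
  have h2 := dser_eq hB (show B + 2 ≤ n by omega)
  have h3 := dser_eq (mul_bd hA hB) (show (A * B + (A + B + 1)) + 2 ≤ n by omega)
  have h4 := LSeriesHasSum.convolution h1 h2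
  have h5 : (fun k => (((f * g : ArithmeticFunction ℚ) k : ℚ) : ℂ)) =
      LSeries.convolution (fun k => ((f k : ℚ) : ℂ)) (fun k => ((g k : ℚ) : ℂ)) := by
    rw [LSeries.convolution_def]
    funext k
    rw [ArithmeticFunction.mul_apply]
    push_cast
    rfl
  rw [h5] at h3
  have h6 := h3.LSeries_eq.symm.trans h4.LSeries_eq
  exact_mod_cast h6

/-- a family of arithmetic functions with uniform bounds and known series -/
def URB {D : Type} (f : D → ArithmeticFunction ℚ) (F : D → ℕ → ℝ) : Prop :=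
  ∃ A : ℕ, (∀ δ, ∀ k : ℕ, 1 ≤ k → |(f δ k : ℝ)| ≤ A * (k : ℝ) ^ A) ∧
    ∀ δ n, A ≤ n → dser (f δ) n = F δ n

lemma URB.one {D : Type} : URB (fun _ : D => 1) (fun _ _ => 1) := by
  refine ⟨1, fun _ k hk => ?_, fun _ n _ => dser_one n⟩
  have h1 : (1 : ℝ) ≤ k := by exact_mod_cast hk
  rw [ArithmeticFunction.one_apply]
  split_ifs
  · simpa using h1
  · simp

lemma URB.mul {D : Type} {f g : D → ArithmeticFunction ℚ} {F G : D → ℕ → ℝ} (hf : URB f F)
    (hg : URB g G) : URB (fun δ => f δ * g δ) (fun δ n => F δ n * G δ n) := by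
  obtain ⟨A, hA, hA2⟩ := hf
  obtain ⟨B, hB, hB2⟩ := hg
  refine ⟨A + B + (A * B + (A + B + 1)) + 2, fun δ k hk => ?_, fun δ n hn => ?_⟩
  · exact PB.mono_exp (by omega) (mul_bd (hA δ) (hB δ)) k hk
  · rw [dser_mul_bd (hA δ) (hB δ) hn, hA2 δ n (by omega), hB2 δ n (by omega)]

lemma URB.pow {D : Type} {f : D → ArithmeticFunction ℚ} {F : D → ℕ → ℝ} (hf : URB f F) (e : ℕ) :
    URB (fun δ => f δ ^ e) (fun δ n => F δ n ^ e) := by
  induction e with
  | zero =>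
    simp only [pow_zero]
    exact URB.one
  | succ e ih =>
    simp only [pow_succ]
    exact ih.mul hf

lemma URB.prod {D ι : Type} (s : Finset ι) (f : ι → D → ArithmeticFunction ℚ)
    (F : ι → D → ℕ → ℝ) (h : ∀ i ∈ s, URB (f i) (F i)) :
    URB (fun δ => ∏ i ∈ s, f i δ) (fun δ n => ∏ i ∈ s, F i δ n) := by
  classical
  induction s using Finset.induction_on with
  | empty => simpa using URB.one
  | insert a s ha ih =>
    have h1 := (h a (Finset.mem_insert_self _ _)).mul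
      (ih fun i hi => h i (Finset.mem_insert_of_mem hi))
    simpa only [Finset.prod_insert ha] using h1

/-- the function with the value `l ^ (-δ)` at `l ^ r` and `0` elsewhere -/
def pw (r δ : ℕ) : ArithmeticFunction ℚ :=
  ⟨fun k => if k ≠ 0 ∧ Nat.floorRoot r k ^ r = k then 1 / (Nat.floorRoot r k : ℚ) ^ δ else 0, by simp⟩

lemma pw_pow {r : ℕ} (hr : r ≠ 0) (δ : ℕ) {l : ℕ} (hl : l ≠ 0) :
    pw r δ (l ^ r) = 1 / (l : ℚ) ^ δ := by
  show (if l ^ r ≠ 0 ∧ Nat.floorRoot r (l ^ r) ^ r = l ^ r then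
    1 / (Nat.floorRoot r (l ^ r) : ℚ) ^ δ else 0) = _
  rw [Nat.floorRoot_pow_self hr, if_pos ⟨pow_ne_zero _ hl, rfl⟩]

lemma pw_ne {r : ℕ} (δ : ℕ) {k : ℕ} (hk : ∀ l : ℕ, l ^ r ≠ k) : pw r δ k = 0 := by
  show (if k ≠ 0 ∧ Nat.floorRoot r k ^ r = k then
    1 / (Nat.floorRoot r k : ℚ) ^ δ else 0) = _
  rw [if_neg (fun h => hk _ h.2)]

lemma pw_cases {r : ℕ} (hr : r ≠ 0) (δ : ℕ) (k : ℕ) :
    pw r δ k = 0 ∨ ∃ l : ℕ, l ≠ 0 ∧ k = l ^ r ∧ pw r δ k = 1 / (l : ℚ) ^ δ := by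
  by_cases h : ∃ l : ℕ, l ^ r = k
  · obtain ⟨l, rfl⟩ := h
    by_cases hl : l = 0
    · left
      rw [hl, zero_pow hr]
      exact ArithmeticFunction.map_zero
    · exact Or.inr ⟨l, hl, rfl, pw_pow hr δ hl⟩
  · push Not at h
    exact Or.inl (pw_ne δ h)

lemma pw_one {r : ℕ} (hr : r ≠ 0) (δ : ℕ) : pw r δ 1 = 1 := by
  have := pw_pow hr δ (one_ne_zero (α := ℕ))
  rw [one_pow] at this
  rw [this]
  simp

lemma pw_mult {r : ℕ} (hr : r ≠ 0) (δ : ℕ) : (pw r δ).IsMultiplicative := by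
  refine ⟨pw_one hr δ, fun {m n} hmn => ?_⟩
  by_cases h : ∃ l : ℕ, l ^ r = m * n
  · obtain ⟨l, hl⟩ := h
    obtain ⟨a, ha⟩ := exists_eq_pow_of_mul_eq_pow (by rw [Nat.isUnit_iff]; exact hmn) hl.symm
    obtain ⟨b, hb⟩ := exists_eq_pow_of_mul_eq_pow
      (by rw [Nat.isUnit_iff]; exact hmn.symm) ((mul_comm n m).trans hl.symm)
    by_cases ha0 : a = 0
    · rw [ha, ha0, zero_pow hr, zero_mul, ArithmeticFunction.map_zero, zero_mul]
    by_cases hb0 : b = 0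
    · rw [hb, hb0, zero_pow hr, mul_zero, ArithmeticFunction.map_zero, mul_zero]
    rw [ha, hb, ← mul_pow, pw_pow hr δ (mul_ne_zero ha0 hb0), pw_pow hr δ ha0, pw_pow hr δ hb0]
    push_cast
    rw [mul_pow]
    field_simp
  · push Not at h
    rw [pw_ne δ h]
    by_contra hcon
    have h1 : pw r δ m ≠ 0 := fun h0 => hcon (by rw [h0, zero_mul])
    have h2 : pw r δ n ≠ 0 := fun h0 => hcon (by rw [h0, mul_zero])
    obtain ⟨a, _, ha, _⟩ := (pw_cases hr δ m).resolve_left h1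
    obtain ⟨b, _, hb, _⟩ := (pw_cases hr δ n).resolve_left h2
    exact h (a * b) (by rw [mul_pow, ha, hb])

lemma pw_bd {r : ℕ} (hr : r ≠ 0) (δ : ℕ) (k : ℕ) (hk : 1 ≤ k) :
    |(pw r δ k : ℝ)| ≤ ((1 : ℕ) : ℝ) * (k : ℝ) ^ 1 := by
  have h1 : (1 : ℝ) ≤ k := by exact_mod_cast hk
  rcases pw_cases hr δ k with h | ⟨l, hl, _, h⟩
  · rw [h]
    simp
  · have h2 : (1 : ℝ) ≤ (l : ℝ) ^ δ := by
      refine one_le_pow₀ ?_
      exact_mod_cast Nat.one_le_iff_ne_zero.2 hl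
    rw [h]
    push_cast
    rw [abs_of_pos (by positivity), pow_one, one_mul]
    refine le_trans ?_ h1
    rw [div_le_one (by linarith only [h2])]
    exact h2

lemma pw_dser {r : ℕ} (hr : r ≠ 0) (δ n : ℕ) :
    dser (pw r δ) n = ∑' m : ℕ, 1 / ((m : ℝ) + 1) ^ (r * n + δ) := by
  have hi : Function.Injective (fun l : ℕ => (l + 1) ^ r - 1) := by
    intro a b hab
    have h1 : (a + 1) ^ r - 1 = (b + 1) ^ r - 1 := hab
    have h2 : 1 ≤ (a + 1) ^ r := Nat.one_le_pow _ _ (by omega)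
    have h3 : 1 ≤ (b + 1) ^ r := Nat.one_le_pow _ _ (by omega)
    have h4 : (a + 1) ^ r = (b + 1) ^ r := by omega
    have h5 := Nat.pow_left_injective hr h4
    omega
  rw [dser, ← hi.tsum_eq]
  · refine tsum_congr fun l => ?_
    have h2 : 1 ≤ (l + 1) ^ r := Nat.one_le_pow _ _ (by omega)
    have h3 : (l + 1) ^ r - 1 + 1 = (l + 1) ^ r := by omega
    simp only [h3]
    rw [pw_pow hr δ (by omega : l + 1 ≠ 0)]
    push_cast
    rw [← pow_mul, div_div, ← pow_add, add_comm δ]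
  · intro k hk
    rw [Function.mem_support] at hk
    have h1 : pw r δ (k + 1) ≠ 0 := fun h => hk (by rw [h]; simp)
    obtain ⟨l, hl, hkl, _⟩ := (pw_cases hr δ (k + 1)).resolve_left h1
    refine ⟨l - 1, ?_⟩
    show (l - 1 + 1) ^ r - 1 = k
    rw [Nat.sub_add_cancel (Nat.one_le_iff_ne_zero.2 hl), ← hkl]
    rfl

/-- `f k * k ^ w` is an integer for all `k` -/
def IntW (w : ℕ) (f : ArithmeticFunction ℚ) : Prop := ∀ k : ℕ, ∃ z : ℤ, (z : ℚ) = f k * (k : ℚ) ^ w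

lemma IntW.one (w : ℕ) : IntW w 1 := by
  intro k
  by_cases hk : k = 1
  · exact ⟨1, by rw [hk]; simp⟩
  · exact ⟨0, by rw [ArithmeticFunction.one_apply_ne hk]; simp⟩

lemma IntW.mul {w : ℕ} {f g : ArithmeticFunction ℚ} (hf : IntW w f) (hg : IntW w g) :
    IntW w (f * g) := by
  intro k
  choose a ha using hf
  choose b hb using hg
  refine ⟨∑ x ∈ k.divisorsAntidiagonal, a x.1 * b x.2, ?_⟩
  rw [ArithmeticFunction.mul_apply, sum_mul]
  push_cast
  refine sum_congr rfl fun x hx => ?_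
  rw [ha, hb]
  have h1 := (Nat.mem_divisorsAntidiagonal.1 hx).1
  have h2 : (k : ℚ) = x.1 * x.2 := by exact_mod_cast h1.symm
  rw [h2, mul_pow]
  ring

lemma IntW.pow {w : ℕ} {f : ArithmeticFunction ℚ} (hf : IntW w f) (e : ℕ) : IntW w (f ^ e) := by
  induction e with
  | zero => simpa using IntW.one w
  | succ e ih =>
    rw [pow_succ]
    exact ih.mul hf

lemma IntW.prod {w : ℕ} {ι : Type} (s : Finset ι) (f : ι → ArithmeticFunction ℚ)
    (h : ∀ i ∈ s, IntW w (f i)) : IntW w (∏ i ∈ s, f i) := by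
  classical
  induction s using Finset.induction_on with
  | empty => simpa using IntW.one w
  | insert a s ha ih =>
    rw [prod_insert ha]
    exact (h a (mem_insert_self _ _)).mul (ih fun i hi => h i (mem_insert_of_mem hi))

lemma pw_int {r : ℕ} (hr : r ≠ 0) {δ w : ℕ} (hδ : δ ≤ w) : IntW w (pw r δ) := by
  intro k
  rcases pw_cases hr δ k with h | ⟨l, hl, hk, h⟩
  · exact ⟨0, by rw [h]; simp⟩
  · refine ⟨(l : ℤ) ^ (r * w - δ), ?_⟩
    rw [h, hk]
    push_cast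
    have h1 : δ ≤ r * w := hδ.trans (Nat.le_mul_of_pos_left w (Nat.pos_of_ne_zero hr))
    have h2 : (l : ℚ) ≠ 0 := by exact_mod_cast hl
    rw [← pow_mul, ← Nat.sub_add_cancel h1, pow_add, Nat.sub_add_cancel h1]
    field_simp

end Pool.Agent.Y760.PZ
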