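import Pool.Agent.Y760.PZ.Core
import Pool.Agent.Y760.PZ.Sep

/-!
# Zeta values at nearby arguments with coefficients in the span of numbers with a measure of linear
independence (helper760)
-/

set_option autoImplicit false

namespace Pool.Agent.Y760.PZ

open Finset Filter Topology Pool.Agent.TH507.ZS Pool.Agent.TH883.Zg Pool.Agent.TH456.TM

/-- a measure of linear independence of polynomial type -/
def LM {ι : Type} [Fintype ι] (θ : ι → ℝ) : Prop :=
  ∃ κ c : ℝ, 0 ≤ κ ∧ 0 < c ∧ ∀ q : ι → ℤ, q ≠ 0 → ∀ H : ℝ, 1 ≤ H → (∀ i, |(q i : ℝ)| ≤ H) →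
    c ≤ H ^ κ * |∑ i, (q i : ℝ) * θ i|

/-- powers of a number with a transcendence measure -/
lemma LM_pow {θ : ℝ} (hθ : MeasT (θ : ℂ)) (D : ℕ) : LM fun i : Fin (D + 1) => θ ^ (i : ℕ) := by
  obtain ⟨κ, c, hκ, hc, hmeas⟩ := hθ D
  refine ⟨κ, c, hκ, hc, fun q hq H hH hqH => ?_⟩
  set Q : Polynomial ℤ := ∑ i : Fin (D + 1), Polynomial.C (q i) * Polynomial.X ^ (i : ℕ) with hQ
  have hcoef : ∀ k, Q.coeff k = if h : k < D + 1 then q ⟨k, h⟩ else 0 := by
    intro k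
    rw [hQ]
    simp only [Polynomial.finsetSum_coeff, Polynomial.coeff_C_mul, Polynomial.coeff_X_pow]
    by_cases h : k < D + 1
    · rw [dif_pos h, sum_eq_single ⟨k, h⟩]
      · simp
      · intro b _ hb
        rw [if_neg (fun h2 => hb (Fin.ext h2.symm)), mul_zero]
      · intro h2
        exact absurd (mem_univ _) h2
    · rw [dif_neg h]
      refine sum_eq_zero fun i _ => ?_
      have := i.2
      rw [if_neg (by omega), mul_zero]
  have h1 := hmeas Q (fun h => hq (by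
    funext i
    have h1 := hcoef i
    rw [h, dif_pos i.2, Polynomial.coeff_zero] at h1
    exact h1.symm)) (by
    rw [Polynomial.natDegree_le_iff_coeff_eq_zero]
    intro k hk
    rw [hcoef k, dif_neg (by omega)]) H hH (fun k => by
    rw [hcoef k]
    split_ifs with h
    · exact hqH _
    · simp only [Int.cast_zero, abs_zero]
      linarith only [hH])
  have h2 : Polynomial.aeval (θ : ℂ) Q = ((∑ i, (q i : ℝ) * θ ^ (i : ℕ) : ℝ) : ℂ) := by
    rw [hQ, map_sum]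
    push_cast
    refine sum_congr rfl fun i _ => ?_
    rw [map_mul, map_pow, Polynomial.aeval_X, Polynomial.aeval_C]
    rfl
  rwa [h2, Complex.norm_real, Real.norm_eq_abs] at h1

/-- **the uniform estimate**: coefficients with denominators dividing `m ^ w`, `w ≤ ε n` -/
theorem core_v (J ι : Type) [Fintype J] [Fintype ι] (θ : ι → ℝ) (hθ : LM θ) (K A : ℕ)
    (hK1 : 1 ≤ K) :
    ∃ ε B C : ℝ, 0 < ε ∧ 1 < B ∧ 1 < C ∧ ∃ n0 : ℕ, ∀ n : ℕ, n0 ≤ n → ∀ w : ℕ, (w : ℝ) ≤ ε * n →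
      ∀ G : J → ArithmeticFunction ℚ,
      (∀ j, ∀ k : ℕ, 1 ≤ k → |(G j k : ℝ)| ≤ A * (k : ℝ) ^ A) →
      (∀ j, IntW w (G j)) →
      (∀ c : J → ℚ, (∀ k ∈ Icc 1 K, ∑ j, c j * G j k = 0) → c = 0) →
      ∀ a : J → ι → ℤ, a ≠ 0 → (∀ j i, |(a j i : ℝ)| ≤ C ^ n) →
      (B ^ n)⁻¹ < |∑ j, (∑ i, (a j i : ℝ) * θ i) * dser (G j) n| := by
  classical
  obtain ⟨κ, c0, hκ, hc0, hmeas⟩ := hθ
  have hKR : (1 : ℝ) ≤ K := by exact_mod_cast hK1
  have hσ : (1 : ℝ) < √(((K : ℝ) + 1) / K) := by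
    rw [Real.lt_sqrt (by norm_num), one_pow, one_lt_div (by linarith only [hKR])]
    linarith only
  -- `C ^ 2 * W = σ` with `W = (C ^ 2) ^ κ`
  obtain ⟨C2, W, hC2, hW, hCW, hpow⟩ := exists_CW hσ hκ
  have hC20 : (0 : ℝ) < C2 := by linarith only [hC2]
  set C : ℝ := √C2 with hCdef
  have hC : 1 < C := by
    rw [hCdef, Real.lt_sqrt (by norm_num), one_pow]
    exact hC2
  have hC0 : (0 : ℝ) < C := by linarith only [hC]
  have hCC : C * C = C2 := Real.mul_self_sqrt hC20.le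
  set ε : ℝ := Real.log C / (Real.log K + 1) with hε
  have hlK : 0 ≤ Real.log K := Real.log_nonneg hKR
  have hε0 : 0 < ε := div_pos (Real.log_pos hC) (by linarith only [hlK])
  have hKw : ∀ w n : ℕ, (w : ℝ) ≤ ε * n → (K : ℝ) ^ w ≤ C ^ n := by
    intro w n hw
    have hlC : 0 < Real.log C := Real.log_pos hC
    rw [← Real.rpow_natCast, ← Real.rpow_natCast, Real.rpow_def_of_pos (by linarith only [hKR]),
      Real.rpow_def_of_pos hC0, Real.exp_le_exp]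
    have h1 : Real.log K * w ≤ (Real.log K + 1) * (ε * n) :=
      mul_le_mul (by linarith only) hw (Nat.cast_nonneg _) (by linarith only [hlK])
    have h2 : (Real.log K + 1) * (ε * n) = Real.log C * n := by
      rw [hε]
      field_simp
    linarith only [h1, h2]
  set E : ℝ := 1 + Fintype.card J * (A * (K : ℝ) ^ A) with hE
  have hE1 : 1 ≤ E := by
    rw [hE]
    have : (0 : ℝ) ≤ Fintype.card J * (A * (K : ℝ) ^ A) := by positivity
    linarith only [this]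
  have hE0 : (0 : ℝ) < E := by linarith only [hE1]
  set S : ℝ := ∑ i : ι, |θ i| with hS
  have hS0 : 0 ≤ S := sum_nonneg fun i _ => abs_nonneg _
  set R0 : ℝ := Fintype.card J * (S * (A * ((K : ℝ) + 1) ^ (A + 2) * Z2)) with hR0
  have hZ2 := Z2_nonneg
  obtain ⟨B, hB, n1, hfin⟩ := final (κ0 := c0 / E ^ κ) (R0 := R0)
    (div_pos hc0 (Real.rpow_pos_of_pos hE0 κ)) hσ
    (one_le_mul_of_one_le_of_one_le hC.le hW : 1 ≤ C * W) K hK1
  refine ⟨ε, B, C, hε0, hB, hC, n1 + (A + 2), fun n hn w hw G hA hint hK a ha haC => ?_⟩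
  -- the least index with a nonzero coefficient
  obtain ⟨i0, hi0⟩ : ∃ i, (fun j => (a j i : ℚ)) ≠ 0 := by
    by_contra hcon
    push Not at hcon
    apply ha
    funext j i
    have := congrFun (hcon i) j
    simpa using this
  have hex : ∃ m, 1 ≤ m ∧ m ≤ K ∧ ∃ i, ∑ j, (a j i : ℚ) * G j m ≠ 0 := by
    by_contra hcon
    push Not at hcon
    exact hi0 (hK _ fun k hk => by
      rw [mem_Icc] at hk
      exact hcon k hk.1 hk.2 i0)
  set m0 := Nat.find hex with hm0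
  obtain ⟨h01, h0K, i1, hi1⟩ : 1 ≤ m0 ∧ m0 ≤ K ∧ ∃ i, ∑ j, (a j i : ℚ) * G j m0 ≠ 0 :=
    Nat.find_spec hex
  have hmin : ∀ m, 1 ≤ m → m < m0 → ∀ i, ∑ j, (a j i : ℚ) * G j m = 0 := by
    intro m hm1 hm i
    by_contra h
    exact Nat.find_min hex hm ⟨hm1, by omega, i, h⟩
  have hm0R : (1 : ℝ) ≤ m0 := by exact_mod_cast h01
  have hm0K : (m0 : ℝ) ≤ K := by exact_mod_cast h0K
  have hmw0 : (0 : ℝ) < (m0 : ℝ) ^ w := by positivity
  have hmwK : (m0 : ℝ) ^ w ≤ C ^ n := (pow_le_pow_left₀ (by linarith only [hm0R]) hm0K w).trans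
    (hKw w n hw)
  set x : J → ℝ := fun j => ∑ i, (a j i : ℝ) * θ i with hx
  -- the coefficient
  have hsw : ∀ k : ℕ, ∑ j, x j * (G j k : ℝ) =
      ∑ i : ι, ((∑ j, (a j i : ℚ) * G j k : ℚ) : ℝ) * θ i := by
    intro k
    simp only [hx, sum_mul]
    rw [sum_comm]
    refine sum_congr rfl fun i _ => ?_
    push_cast
    rw [sum_mul]
    refine sum_congr rfl fun j _ => ?_
    ring
  have hzero : ∀ k, 1 ≤ k → k < m0 → ∑ j, x j * (G j k : ℝ) = 0 := by
    intro k hk hk0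
    rw [hsw]
    refine sum_eq_zero fun i _ => ?_
    rw [hmin k hk hk0 i]
    simp
  -- the polynomial
  choose z hz using fun j => hint j m0
  set q : ι → ℤ := fun i => ∑ j, a j i * z j with hq
  have hqQ : ∀ i, (q i : ℚ) = (m0 : ℚ) ^ w * ∑ j, (a j i : ℚ) * G j m0 := by
    intro i
    rw [hq, mul_sum]
    push_cast
    refine sum_congr rfl fun j _ => ?_
    rw [hz j]
    ring
  have hQ0 : q ≠ 0 := by
    intro h
    have h2 := hqQ i1
    rw [h] at h2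
    have h3 : (m0 : ℚ) ^ w * ∑ j, (a j i1 : ℚ) * G j m0 = 0 := by
      rw [← h2]
      simp
    rcases mul_eq_zero.1 h3 with h4 | h4
    · have h5 : (m0 : ℚ) ≠ 0 := by
        have : m0 ≠ 0 := by omega
        exact_mod_cast this
      exact pow_ne_zero _ h5 h4
    · exact hi1 h4
  have hCn : (1 : ℝ) ≤ C2 ^ n := one_le_pow₀ hC2.le
  have hqb : ∀ i, |(q i : ℝ)| ≤ E * C2 ^ n := by
    intro i
    have h1 : (q i : ℝ) = (m0 : ℝ) ^ w * ∑ j, (a j i : ℝ) * (G j m0 : ℝ) := by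
      exact_mod_cast hqQ i
    rw [h1, abs_mul, abs_of_pos hmw0]
    have h2 : |∑ j, (a j i : ℝ) * (G j m0 : ℝ)| ≤ Fintype.card J * (C ^ n * (A * (K : ℝ) ^ A)) := by
      refine (abs_sum_le_sum_abs _ _).trans ?_
      rw [← nsmul_eq_mul, ← card_univ, ← sum_const]
      refine sum_le_sum fun j _ => ?_
      rw [abs_mul]
      refine mul_le_mul (haC j i) ((hA j m0 h01).trans ?_) (abs_nonneg _) (by positivity)
      gcongr
    calc (m0 : ℝ) ^ w * |∑ j, (a j i : ℝ) * (G j m0 : ℝ)| ≤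
        C ^ n * (Fintype.card J * (C ^ n * (A * (K : ℝ) ^ A))) :=
          mul_le_mul hmwK h2 (abs_nonneg _) (by positivity)
      _ = (Fintype.card J * (A * (K : ℝ) ^ A)) * C2 ^ n := by
        rw [← hCC, mul_pow]
        ring
      _ ≤ E * C2 ^ n := by
        refine mul_le_mul_of_nonneg_right ?_ (by positivity)
        rw [hE]
        linarith only
  have hmeasQ := hmeas q hQ0 (E * C2 ^ n) (one_le_mul_of_one_le_of_one_le hE1 hCn) hqb
  have hQθ : |∑ i, (q i : ℝ) * θ i| = (m0 : ℝ) ^ w * |∑ j, x j * (G j m0 : ℝ)| := by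
    have h1 : ∑ i, (q i : ℝ) * θ i = (m0 : ℝ) ^ w * ∑ j, x j * (G j m0 : ℝ) := by
      rw [hsw, mul_sum]
      refine sum_congr rfl fun i _ => ?_
      have h2 : ((q i : ℤ) : ℝ) = (m0 : ℝ) ^ w * ∑ j, (a j i : ℝ) * (G j m0 : ℝ) := by
        exact_mod_cast hqQ i
      rw [h2]
      push_cast
      ring
    rw [h1, abs_mul, abs_of_pos hmw0]
  rw [hQθ, hpow E n hE0.le] at hmeasQ
  -- the remainder
  have htail : |∑ j, x j * dser (G j) n - (∑ j, x j * (G j m0 : ℝ)) / (m0 : ℝ) ^ n| ≤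
      R0 * C ^ n / ((m0 : ℝ) + 1) ^ n := by
    have h1 : ∑ j, x j * dser (G j) n - (∑ j, x j * (G j m0 : ℝ)) / (m0 : ℝ) ^ n =
        ∑ j, x j * (dser (G j) n - ∑ m ∈ Ico 1 (m0 + 1), (G j m : ℝ) / (m : ℝ) ^ n) := by
      simp only [mul_sub, sum_sub_distrib]
      congr 1
      have h2 : ∑ j, x j * ∑ m ∈ Ico 1 (m0 + 1), (G j m : ℝ) / (m : ℝ) ^ n =
          ∑ m ∈ Ico 1 (m0 + 1), (∑ j, x j * (G j m : ℝ)) / (m : ℝ) ^ n := by
        simp only [mul_sum, sum_div]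
        rw [sum_comm]
        refine sum_congr rfl fun m _ => sum_congr rfl fun j _ => ?_
        ring
      rw [h2, sum_eq_single m0]
      · intro m hm hne
        rw [mem_Ico] at hm
        rw [hzero m hm.1 (by omega), zero_div]
      · intro h
        exact absurd (mem_Ico.2 ⟨h01, by omega⟩) h
    rw [h1]
    refine (abs_sum_le_sum_abs _ _).trans ?_
    have h3 : ∀ j ∈ (univ : Finset J), |x j * (dser (G j) n -
        ∑ m ∈ Ico 1 (m0 + 1), (G j m : ℝ) / (m : ℝ) ^ n)| ≤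
        C ^ n * S * (A * (((K : ℝ) + 1) ^ (A + 2) / ((m0 : ℝ) + 1) ^ n) * Z2) := by
      intro j _
      rw [abs_mul]
      have h4 := tail (hA j) (show 1 ≤ m0 + 1 by omega) (show A + 2 ≤ n by omega)
      have h5 : ((m0 + 1 : ℕ) : ℝ) = (m0 : ℝ) + 1 := by push_cast; rfl
      rw [h5] at h4
      have h6 : |x j| ≤ C ^ n * S := by
        rw [hx, hS, mul_sum]
        refine (abs_sum_le_sum_abs _ _).trans (sum_le_sum fun i _ => ?_)
        rw [abs_mul]
        exact mul_le_mul_of_nonneg_right (haC j i) (abs_nonneg _)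
      refine mul_le_mul h6 (h4.trans ?_) (abs_nonneg _) (by positivity)
      gcongr
    refine (sum_le_sum h3).trans (le_of_eq ?_)
    rw [sum_const, card_univ, nsmul_eq_mul, hR0]
    ring
  -- conclusion
  refine hfin n (by omega) m0 h01 h0K _ ?_
  set u : ℝ := ∑ j, x j * (G j m0 : ℝ) with hu
  set T : ℝ := ∑ j, x j * dser (G j) n with hT
  have hmn : (0 : ℝ) < (m0 : ℝ) ^ n := by positivity
  have hWn : (0 : ℝ) < W ^ n := by
    have : (0 : ℝ) < W := by linarith only [hW]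
    positivity
  have hCn0 : (0 : ℝ) < C ^ n := pow_pos hC0 n
  have hEκ : (0 : ℝ) < E ^ κ := Real.rpow_pos_of_pos hE0 κ
  have h1 : |u| / (m0 : ℝ) ^ n - R0 * C ^ n / ((m0 : ℝ) + 1) ^ n ≤ |T| := by
    have h2 : |u / (m0 : ℝ) ^ n| - |T - u / (m0 : ℝ) ^ n| ≤ |T| := by
      have h3 := abs_sub_abs_le_abs_sub (u / (m0 : ℝ) ^ n) T
      rw [abs_sub_comm] at h3
      linarith only [h3]
    rw [abs_div, abs_of_pos hmn] at h2
    linarith only [h2, htail]
  have h2 : c0 / E ^ κ ≤ |u| * (C * W) ^ n := by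
    rw [div_le_iff₀ hEκ]
    calc c0 ≤ E ^ κ * W ^ n * ((m0 : ℝ) ^ w * |u|) := hmeasQ
      _ ≤ E ^ κ * W ^ n * (C ^ n * |u|) := by gcongr
      _ = |u| * (C * W) ^ n * E ^ κ := by
        rw [mul_pow]
        ring
  have hR00 : 0 ≤ R0 := by
    rw [hR0]
    positivity
  have h3 : R0 * C ^ n / ((m0 : ℝ) + 1) ^ n * ((m0 : ℝ) ^ n * (C * W) ^ n) ≤
      R0 / √(((K : ℝ) + 1) / K) ^ n := by
    set s : ℝ := √(((K : ℝ) + 1) / K) with hs
    have hs0 : 0 < s := by linarith only [hσ]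
    have hs2 : s * s = ((K : ℝ) + 1) / K := Real.mul_self_sqrt (by positivity)
    have h4 : s * s ≤ ((m0 : ℝ) + 1) / m0 := by
      rw [hs2, div_le_div_iff₀ (by linarith only [hKR]) (by linarith only [hm0R])]
      nlinarith only [hm0K]
    have h5 : R0 * C ^ n / ((m0 : ℝ) + 1) ^ n * ((m0 : ℝ) ^ n * (C * W) ^ n) =
        R0 * (s ^ n * ((m0 : ℝ) / ((m0 : ℝ) + 1)) ^ n) := by
      rw [← hCW, ← hCC, mul_pow, mul_pow, mul_pow, div_pow (m0 : ℝ)]
      ring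
    rw [h5, div_eq_mul_inv]
    refine mul_le_mul_of_nonneg_left ?_ hR00
    rw [← mul_pow, ← inv_pow]
    refine pow_le_pow_left₀ (by positivity) ?_ n
    rw [show s⁻¹ = 1 / s from (one_div s).symm, le_div_iff₀ hs0]
    have hm1 : (0 : ℝ) < (m0 : ℝ) + 1 := by linarith only [hm0R]
    have hm2 : (0 : ℝ) < (m0 : ℝ) := by linarith only [hm0R]
    calc s * ((m0 : ℝ) / ((m0 : ℝ) + 1)) * s = s * s * ((m0 : ℝ) / ((m0 : ℝ) + 1)) := by ring
      _ ≤ ((m0 : ℝ) + 1) / m0 * ((m0 : ℝ) / ((m0 : ℝ) + 1)) :=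
        mul_le_mul_of_nonneg_right h4 (by positivity)
      _ = 1 := by field_simp
  have hCWn : (0 : ℝ) < (C * W) ^ n := by
    rw [mul_pow]
    exact mul_pos hCn0 hWn
  calc c0 / E ^ κ - R0 / √(((K : ℝ) + 1) / K) ^ n ≤
      |u| * (C * W) ^ n -
        R0 * C ^ n / ((m0 : ℝ) + 1) ^ n * ((m0 : ℝ) ^ n * (C * W) ^ n) := sub_le_sub h2 h3
    _ = (|u| / (m0 : ℝ) ^ n - R0 * C ^ n / ((m0 : ℝ) + 1) ^ n) *
        ((m0 : ℝ) ^ n * (C * W) ^ n) := by
      field_simp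
    _ ≤ |T| * ((m0 : ℝ) ^ n * (C * W) ^ n) :=
      mul_le_mul_of_nonneg_right h1 (mul_pos hmn hCWn).le

/-- the value of a polynomial of bounded degree -/
lemma eval_exq' {J : Type} [Fintype J] [DecidableEq J] {d : ℕ} {P : MvPolynomial J ℤ}
    (hP : P.totalDegree ≤ d) (x : J → ℝ) :
    MvPolynomial.aeval x P =
      ∑ e : J → Fin (d + 1), ((P.coeff (exq e) : ℤ) : ℝ) *
        ∏ j, x j ^ ((e j : Fin (d + 1)) : ℕ) := by
  classical
  rw [MvPolynomial.aeval_def, MvPolynomial.eval₂_eq']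
  have h5 : ∑ e : J → Fin (d + 1), ((P.coeff (exq e) : ℤ) : ℝ) *
      ∏ j, x j ^ ((e j : Fin (d + 1)) : ℕ) =
      ∑ m ∈ (univ : Finset (J → Fin (d + 1))).image exq, ((P.coeff m : ℤ) : ℝ) *
        ∏ j, x j ^ (m j) := by
    rw [sum_image (fun _ _ _ _ hee => exq_inj hee)]
    rfl
  rw [h5]
  refine sum_subset ?_ ?_
  · intro m hm
    obtain ⟨e, he⟩ := exq_surj hP hm
    exact mem_image.2 ⟨e, mem_univ _, he⟩
  · intro m _ hm
    rw [MvPolynomial.notMem_support_iff.1 hm]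
    simp

/-- **zeta values at arguments near `r n`, with coefficients in the span of `θ`** -/
theorem zeta_v {I ι : Type} [Fintype I] [DecidableEq I] [Fintype ι] (θ : ι → ℝ) (hθ : LM θ)
    (r : I → ℕ) (hr : ∀ i, 1 ≤ r i) (d : ℕ) :
    ∃ ε B C : ℝ, 0 < ε ∧ 1 < B ∧ 1 < C ∧ ∃ n0 : ℕ, ∀ n : ℕ, n0 ≤ n → ∀ s : I → ℕ,
      Function.Injective s → (∀ i, r i * n ≤ s i ∧ (s i : ℝ) ≤ (r i + ε) * n) →
      ∀ a : (I → Fin (d + 1)) → ι → ℤ, a ≠ 0 → (∀ e i, |(a e i : ℝ)| ≤ C ^ n) →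
      (B ^ n)⁻¹ < |∑ e : I → Fin (d + 1), (∑ i, (a e i : ℝ) * θ i) *
        ∏ i, (∑' m : ℕ, 1 / ((m : ℝ) + 1) ^ (s i)) ^ ((e i : Fin (d + 1)) : ℕ)| := by
  classical
  have hr0 : ∀ i, r i ≠ 0 := fun i => by have := hr i; omega
  obtain ⟨K, hK1, hK⟩ := rank_u r hr0 d
  -- uniform bounds for the monomials
  have hu : ∀ e : I → Fin (d + 1), URB (fun δ : I → ℕ => Mo r δ e)
      (fun δ n => ∏ i, (∑' m : ℕ, 1 / ((m : ℝ) + 1) ^ (r i * n + δ i)) ^
        ((e i : Fin (d + 1)) : ℕ)) := by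
    intro e
    refine URB.prod univ (fun i (δ : I → ℕ) => pw (r i) (δ i) ^ ((e i : Fin (d + 1)) : ℕ))
      (fun i δ n => (∑' m : ℕ, 1 / ((m : ℝ) + 1) ^ (r i * n + δ i)) ^
        ((e i : Fin (d + 1)) : ℕ)) fun i _ => URB.pow ⟨1, fun δ k hk => ?_, fun δ n _ => ?_⟩ _
    · exact pw_bd (hr0 i) (δ i) k hk
    · exact pw_dser (hr0 i) (δ i) n
  choose A hA hA2 using hu
  set A0 : ℕ := ∑ e, A e with hA0
  have hAle : ∀ e, A e ≤ A0 := fun e =>
    single_le_sum (f := A) (fun _ _ => Nat.zero_le _) (mem_univ e)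
  obtain ⟨ε, B, C, hε, hB, hC, n0, hmain⟩ := core_v (I → Fin (d + 1)) ι θ hθ K A0 hK1
  refine ⟨ε, B, C, hε, hB, hC, n0 + A0, fun n hn s hs hsr a ha haC => ?_⟩
  set δ : I → ℕ := fun i => s i - r i * n with hδ
  have hsδ : ∀ i, s i = r i * n + δ i := fun i => by
    have := (hsr i).1
    simp only [hδ]
    omega
  have hδε : ∀ i, (δ i : ℝ) ≤ ε * n := by
    intro i
    have h1 := (hsr i).2
    have h2 : (s i : ℝ) = r i * n + δ i := by exact_mod_cast hsδ i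
    rw [h2] at h1
    linarith only [h1]
  have hδi : ∀ i j, r i = r j → δ i = δ j → i = j := by
    intro i j h1 h2
    apply hs
    rw [hsδ i, hsδ j, h1, h2]
  -- the largest shift
  have hw : ∃ w : ℕ, (w : ℝ) ≤ ε * n ∧ ∀ i, δ i ≤ w := by
    refine ⟨⌊ε * n⌋₊, Nat.floor_le (by positivity), fun i => Nat.le_floor (hδε i)⟩
  obtain ⟨w, hwε, hw⟩ := hw
  have h3 := hmain n (by omega) w hwε (fun e => Mo r δ e)
    (fun e k hk => PB.mono_exp (hAle e) (hA e δ) k hk)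
    (fun e => IntW.prod univ _ fun i _ => (pw_int (hr0 i) (hw i)).pow _)
    (hK δ hδi)
    a ha haC
  have h4 : ∀ e : I → Fin (d + 1), dser (Mo r δ e) n =
      ∏ i, (∑' m : ℕ, 1 / ((m : ℝ) + 1) ^ (s i)) ^ ((e i : Fin (d + 1)) : ℕ) := by
    intro e
    have h5 := hA2 e δ n (by have := hAle e; omega)
    rw [h5]
    refine prod_congr rfl fun i _ => ?_
    rw [← hsδ i]
  simp only [h4] at h3
  exact h3

end Pool.Agent.Y760.PZ
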